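import Mathlib
import Pool.Agent.L7h67.WA.Stm

/-!
# Project WA: SLICE and BC
-/

set_option autoImplicit false

namespace Pool.Agent.L7h37.WA

open Finset MeasureTheory Filter

theorem s_SLICE : Pool.Agent.L7h67.WA.S_SLICE := by
  intro κ _ _ j R d E hR hd hE hbd hsl
  set e := MeasurableEquiv.piEquivPiSubtypeProd (fun _ : κ => ℝ) (fun i => i = j) with he
  have hmp : MeasurePreserving e.symm volume volume := by
    have h := (volume_preserving_piEquivPiSubtypeProd (fun _ : κ => ℝ) (fun i => i = j)).symm e
    have hinst : (Subtype.fintype fun i : κ => i = j) = Fintype.subtypeEq j := Subsingleton.elim _ _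
    rw [hinst] at h
    exact h
  rw [← hmp.measure_preimage hE.nullMeasurableSet]
  have hS : MeasurableSet (e.symm ⁻¹' E) := e.symm.measurable hE
  rw [Measure.volume_eq_prod, Measure.prod_apply_symm hS]
  set Bx : Set ({i : κ // ¬ i = j} → ℝ) := Set.univ.pi fun _ => Set.Icc (-R) R with hBx
  have hBm : MeasurableSet Bx := MeasurableSet.univ_pi fun _ => measurableSet_Icc
  have hbound : ∀ y : {i : κ // ¬ i = j} → ℝ,
      volume ((fun x : {i : κ // i = j} → ℝ => (x, y)) ⁻¹' (e.symm ⁻¹' E)) ≤
        Bx.indicator (fun _ => ENNReal.ofReal d) y := by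
    intro y
    by_cases hy : y ∈ Bx
    · rw [Set.indicator_of_mem hy]
      have hT : MeasurableSet ((fun x : {i : κ // i = j} → ℝ => (x, y)) ⁻¹' (e.symm ⁻¹' E)) :=
        measurable_prodMk_right hS
      have hu : MeasurePreserving (MeasurableEquiv.funUnique {i : κ // i = j} ℝ).symm
          volume volume := by
        have h := (volume_preserving_funUnique {i : κ // i = j} ℝ).symm
          (MeasurableEquiv.funUnique {i : κ // i = j} ℝ)
        exact h
      rw [← hu.measure_preimage hT.nullMeasurableSet]
      refine (Real.volume_le_diam _).trans ?_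
      apply Metric.ediam_le
      intro s hs s' hs'
      rw [edist_dist]
      apply ENNReal.ofReal_le_ofReal
      rw [Real.dist_eq]
      simp only [Set.mem_preimage] at hs hs'
      have h1 := hsl _ hs' s ?_
      · convert h1 using 3
        simp [he, MeasurableEquiv.piEquivPiSubtypeProd, Equiv.piEquivPiSubtypeProd]
      · convert hs using 1
        funext i
        by_cases hi : i = j
        · subst hi
          simp [he, MeasurableEquiv.piEquivPiSubtypeProd, Equiv.piEquivPiSubtypeProd]
        · simp [he, MeasurableEquiv.piEquivPiSubtypeProd, Equiv.piEquivPiSubtypeProd, hi,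
            Function.update]
    · rw [Set.indicator_of_notMem hy]
      have hempty : (fun x : {i : κ // i = j} → ℝ => (x, y)) ⁻¹' (e.symm ⁻¹' E) = ∅ := by
        ext x
        simp only [Set.mem_preimage, Set.mem_empty_iff_false, iff_false]
        intro hx
        apply hy
        intro i _
        have := hbd _ hx i.val
        rw [show e.symm (x, y) i.val = y i by
          simp [he, MeasurableEquiv.piEquivPiSubtypeProd, Equiv.piEquivPiSubtypeProd, i.property]]
          at this
        exact ⟨(abs_le.1 this).1, (abs_le.1 this).2⟩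
      rw [hempty, measure_empty]
  calc ∫⁻ y : {i : κ // ¬ i = j} → ℝ,
        volume ((fun x : {i : κ // i = j} → ℝ => (x, y)) ⁻¹' (e.symm ⁻¹' E))
      ≤ ∫⁻ y : {i : κ // ¬ i = j} → ℝ, Bx.indicator (fun _ => ENNReal.ofReal d) y :=
        lintegral_mono hbound
    _ = ENNReal.ofReal d * volume Bx := by
        rw [lintegral_indicator hBm, setLIntegral_const]
    _ = ENNReal.ofReal ((2 * R) ^ (Fintype.card κ - 1) * d) := by
        rw [hBx, volume_pi_pi]
        simp only [Real.volume_Icc, prod_const, card_univ, sub_neg_eq_add]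
        rw [Fintype.card_subtype_compl, Fintype.card_subtype_eq, mul_comm,
          ENNReal.ofReal_mul (by positivity), ENNReal.ofReal_pow (by positivity), two_mul]

theorem s_BC : Pool.Agent.L7h67.WA.S_BC := by
  intro Ω _ μ β Q E b c hE hb hc hsum hev
  obtain ⟨L, hL⟩ := eventually_atTop.1 hev
  set f : ℕ → Ω → ENNReal := fun l ω => ∑ p ∈ Q l, (E l p).indicator (fun _ => (1 : ENNReal)) ω
    with hf
  have hfm : ∀ l, Measurable (f l) := by
    intro l
    refine Finset.measurable_fun_sum _ fun p hp => ?_
    exact measurable_const.indicator (hE l p hp)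
  have hint : ∀ l, ∫⁻ ω, f l ω ∂μ = ∑ p ∈ Q l, μ (E l p) := by
    intro l
    rw [hf]
    simp only
    rw [lintegral_finsetSum _ fun p hp => measurable_const.indicator (hE l p hp)]
    refine sum_congr rfl fun p hp => ?_
    rw [lintegral_indicator (hE l p hp), setLIntegral_const, one_mul]
  set s : ℕ → Set Ω := fun l => if L ≤ l then {ω | ENNReal.ofReal (b l) ≤ f l ω} else ∅ with hs
  have hsm : ∀ l, μ (s l) ≤ ENNReal.ofReal (c l) := by
    intro l
    rw [hs]
    simp only
    split_ifs with h
    · have h1 := mul_meas_ge_le_lintegral (μ := μ) (hfm l) (ENNReal.ofReal (b l))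
      rw [hint l] at h1
      have h2 := h1.trans (hL l h)
      rw [mul_comm (c l), ENNReal.ofReal_mul (hb l).le] at h2
      have h0 : ENNReal.ofReal (b l) ≠ 0 := by
        rw [ne_eq, ENNReal.ofReal_eq_zero, not_le]; exact hb l
      exact (ENNReal.mul_le_mul_iff_right h0 ENNReal.ofReal_ne_top).1 h2
    · simp
  have htsum : ∑' l, μ (s l) ≠ ⊤ := by
    refine ne_top_of_le_ne_top ?_ (ENNReal.tsum_le_tsum hsm)
    exact hsum.tsum_ofReal_ne_top
  filter_upwards [ae_eventually_notMem htsum] with ω hω
  filter_upwards [hω, eventually_ge_atTop L] with l hl hLl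
  intro X hX hXE
  rw [hs] at hl
  simp only [hLl, if_true, Set.mem_ofPred_eq, not_le] at hl
  have h1 : (#X : ENNReal) ≤ f l ω := by
    rw [hf]
    simp only
    calc (#X : ENNReal) = ∑ p ∈ X, (E l p).indicator (fun _ => (1 : ENNReal)) ω := by
          rw [sum_congr rfl fun p hp => Set.indicator_of_mem (hXE p hp) _]
          simp
      _ ≤ _ := sum_le_sum_of_subset hX
  have h2 : (#X : ENNReal) ≤ ENNReal.ofReal (b l) := h1.trans hl.le
  rw [← ENNReal.ofReal_natCast] at h2
  exact (ENNReal.ofReal_le_ofReal_iff (hb l).le).1 h2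

end Pool.Agent.L7h37.WA
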