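import Mathlib
import Pool.Agent.L7h67.WA.Stm
import Pool.Agent.Helper602.MK.J5b

/-!
# Project WA: CORE, the Davenport-Heilbronn method with the Gaussian kernel
-/

set_option autoImplicit false

namespace Pool.Agent.L7h37.WA

open Finset MeasureTheory Polynomial Filter
open Pool.Agent.Helper602.MK (ee)
open Pool.Agent.Helper602.MK.N_J5b (norm_ee ee_add ee_conj ee_zero)
open Pool.Agent.L7h67.WA

/-- Gaussian weight -/
noncomputable def gw (w β : ℝ) : ℝ := w * Real.exp (-(Real.pi * w ^ 2) * β ^ 2)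

theorem gw_nonneg {w : ℝ} (hw : 0 < w) (β : ℝ) : 0 ≤ gw w β := by unfold gw; positivity

theorem continuous_ee : Continuous ee := by unfold ee; fun_prop

theorem continuous_gw (w : ℝ) : Continuous (gw w) := by unfold gw; fun_prop

theorem integrable_gw {w : ℝ} (hw : 0 < w) : Integrable (gw w) := by
  unfold gw
  exact (integrable_exp_neg_mul_sq (b := Real.pi * w ^ 2) (by positivity)).const_mul w

theorem integral_gw {w : ℝ} (hw : 0 < w) (t : ℝ) :
    ∫ β : ℝ, (gw w β : ℂ) * ee (β * t) = (gs w t : ℂ) := by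
  have hb : 0 < (((Real.pi * w ^ 2 : ℝ) : ℂ)).re := by
    rw [Complex.ofReal_re]; positivity
  have h := fourierIntegral_gaussian hb ((2 * Real.pi * t : ℝ) : ℂ)
  have h1 : ∀ β : ℝ, (gw w β : ℂ) * ee (β * t) = (w : ℂ) *
      (Complex.exp (Complex.I * ((2 * Real.pi * t : ℝ) : ℂ) * β) *
        Complex.exp (-((Real.pi * w ^ 2 : ℝ) : ℂ) * (β : ℂ) ^ 2)) := by
    intro β
    unfold gw ee
    push_cast
    rw [show 2 * (Real.pi : ℂ) * (β * t) * Complex.I = Complex.I * (2 * Real.pi * t) * β by ring]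
    ring
  simp_rw [h1]
  rw [integral_const_mul, h]
  have h2 : ((Real.pi : ℂ) / ((Real.pi * w ^ 2 : ℝ) : ℂ)) ^ (1 / 2 : ℂ) = ((1 / w : ℝ) : ℂ) := by
    rw [show (1 / 2 : ℂ) = ((1 / 2 : ℝ) : ℂ) by push_cast; rfl, ← Complex.ofReal_div,
      ← Complex.ofReal_cpow (by positivity)]
    congr 1
    rw [← Real.sqrt_eq_rpow, show Real.pi / (Real.pi * w ^ 2) = (1 / w) ^ 2 by
      have := Real.pi_pos.ne'
      field_simp, Real.sqrt_sq (by positivity)]
  rw [h2]
  unfold gs
  push_cast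
  rw [← mul_assoc, mul_one_div_cancel (by exact_mod_cast hw.ne'), one_mul]
  congr 1
  have hpi : (Real.pi : ℂ) ≠ 0 := by exact_mod_cast Real.pi_pos.ne'
  have hwc : (w : ℂ) ≠ 0 := by exact_mod_cast hw.ne'
  field_simp
  ring

theorem integrable_bdd {w : ℝ} (hw : 0 < w) (f : ℝ → ℂ) (hf : Continuous f) (C : ℝ)
    (h : ∀ β, ‖f β‖ ≤ C) : Integrable (fun β => (gw w β : ℂ) * f β) := by
  refine Integrable.mono' (g := fun β => gw w β * C) ((integrable_gw hw).mul_const C) ?_ ?_
  · have : Continuous (fun β => (gw w β : ℂ) * f β) :=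
      (Complex.continuous_ofReal.comp (continuous_gw w)).mul hf
    exact this.aestronglyMeasurable
  · refine ae_of_all _ fun β => ?_
    rw [norm_mul, Complex.norm_real, Real.norm_of_nonneg (gw_nonneg hw β)]
    exact mul_le_mul_of_nonneg_left (h β) (gw_nonneg hw β)

theorem integrable_gw_ee {w : ℝ} (hw : 0 < w) (t : ℝ) :
    Integrable (fun β : ℝ => (gw w β : ℂ) * ee (β * t)) :=
  integrable_bdd hw _ (continuous_ee.comp (by fun_prop)) 1 fun β => by rw [norm_ee]

theorem cont_WS (F : ℝ[X]) (a P : ℕ) : Continuous (WS F a P) := by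
  unfold WS
  exact continuous_finsetSum _ fun z _ => continuous_ee.comp (by fun_prop)

theorem cont_WI (F : ℝ[X]) (a P : ℕ) : Continuous (WI F a P) := by
  unfold WI
  apply intervalIntegral.continuous_parametric_intervalIntegral_of_continuous'
  exact continuous_ee.comp (by fun_prop)

theorem norm_WS (F : ℝ[X]) (a P : ℕ) (β : ℝ) : ‖WS F a P β‖ ≤ 3 * ((a : ℝ) * P) := by
  unfold WS
  refine (norm_sum_le _ _).trans ?_
  simp only [norm_ee, sum_const, Nat.card_Ioc, nsmul_eq_mul, mul_one]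
  rw [Nat.cast_sub (by omega)]
  push_cast
  linarith

theorem norm_WI (F : ℝ[X]) (a P : ℕ) (β : ℝ) : ‖WI F a P β‖ ≤ 3 * ((a : ℝ) * P) := by
  unfold WI
  refine (intervalIntegral.norm_integral_le_of_norm_le_const (C := 1) fun u _ => by
    rw [norm_ee]).trans ?_
  have h0 : (0 : ℝ) ≤ (a : ℝ) * P := by positivity
  push_cast
  rw [one_mul, abs_of_nonneg (by linarith)]
  linarith

theorem gs_eq_sum {w : ℝ} (hw : 0 < w) (F : ℝ[X]) (a P : ℕ) (τ : ℝ) :
    ∫ β : ℝ, (gw w β : ℂ) * (WS F a P β * ee (-(β * τ))) = (GS F a P w τ : ℂ) := by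
  have h1 : ∀ β : ℝ, (gw w β : ℂ) * (WS F a P β * ee (-(β * τ))) =
      ∑ z ∈ Ioc (a * P) (4 * (a * P)), (gw w β : ℂ) * ee (β * (F.eval (z : ℝ) - τ)) := by
    intro β
    unfold WS
    rw [sum_mul, mul_sum]
    refine sum_congr rfl fun z _ => ?_
    rw [← ee_add]
    congr 2
    ring
  simp_rw [h1]
  rw [integral_finsetSum _ fun z _ => integrable_gw_ee hw _]
  unfold GS
  push_cast
  exact sum_congr rfl fun z _ => integral_gw hw _

theorem gi_eq_int {w : ℝ} (hw : 0 < w) (F : ℝ[X]) (a P : ℕ) (τ : ℝ) :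
    ∫ β : ℝ, (gw w β : ℂ) * (WI F a P β * ee (-(β * τ))) = (GI F a P w τ : ℂ) := by
  have h1 : ∀ β : ℝ, (gw w β : ℂ) * (WI F a P β * ee (-(β * τ))) =
      ∫ u in (((a * P : ℕ) : ℝ))..(((4 * (a * P) : ℕ) : ℝ)),
        (gw w β : ℂ) * ee (β * (F.eval u - τ)) := by
    intro β
    unfold WI
    rw [← intervalIntegral.integral_mul_const, ← intervalIntegral.integral_const_mul]
    congr 1
    funext u
    rw [← ee_add]
    congr 2
    ring
  simp_rw [h1]
  have hswap := intervalIntegral_integral_swap (μ := (volume : Measure ℝ))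
    (a := ((a * P : ℕ) : ℝ)) (b := ((4 * (a * P) : ℕ) : ℝ))
    (f := fun (u : ℝ) (β : ℝ) => (gw w β : ℂ) * ee (β * (F.eval u - τ))) ?_
  · rw [← hswap]
    unfold GI
    rw [← intervalIntegral.integral_ofReal]
    congr 1
    funext u
    exact integral_gw hw _
  · have hi : Integrable (fun z : ℝ × ℝ => (1 : ℝ) * gw w z.2)
        ((volume.restrict (Set.uIoc ((a * P : ℕ) : ℝ) ((4 * (a * P) : ℕ) : ℝ))).prod volume) :=
      Integrable.mul_prod (f := fun _ : ℝ => (1 : ℝ)) (by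
        rw [integrable_const_iff]
        right
        constructor
        rw [Measure.restrict_apply_univ, Set.uIoc, Real.volume_Ioc]
        exact ENNReal.ofReal_lt_top) (integrable_gw hw)
    refine Integrable.mono' hi ?_ ?_
    · have : Continuous (Function.uncurry fun (u : ℝ) (β : ℝ) =>
          (gw w β : ℂ) * ee (β * (F.eval u - τ))) := by
        refine (Complex.continuous_ofReal.comp ((continuous_gw w).comp continuous_snd)).mul ?_
        exact continuous_ee.comp (by fun_prop)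
      exact this.aestronglyMeasurable
    · refine ae_of_all _ fun z => ?_
      simp only [Function.uncurry]
      rw [norm_mul, norm_ee, Complex.norm_real, Real.norm_of_nonneg (gw_nonneg hw _)]
      linarith

/-- exponential sum over a finite family -/
noncomputable def SX {α : Type} (X : Finset α) (G : α → ℝ) (β : ℝ) : ℂ := ∑ x ∈ X, ee (β * G x)

theorem cont_SX {α : Type} (X : Finset α) (G : α → ℝ) : Continuous (SX X G) := by
  unfold SX
  exact continuous_finsetSum _ fun z _ => continuous_ee.comp (by fun_prop)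

theorem norm_SX {α : Type} (X : Finset α) (G : α → ℝ) (β : ℝ) : ‖SX X G β‖ ≤ #X := by
  unfold SX
  refine (norm_sum_le _ _).trans ?_
  simp [norm_ee]

theorem sq_SX {α : Type} (X : Finset α) (G : α → ℝ) (β : ℝ) :
    ((‖SX X G β‖ ^ 2 : ℝ) : ℂ) = ∑ x ∈ X, ∑ x' ∈ X, ee (β * (G x - G x')) := by
  push_cast
  rw [← Complex.mul_conj']
  unfold SX
  rw [map_sum, sum_mul_sum]
  refine sum_congr rfl fun x _ => sum_congr rfl fun x' _ => ?_
  rw [ee_conj, ← ee_add]
  congr 1
  ring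

theorem int_sq {α : Type} (X : Finset α) (G : α → ℝ) {w : ℝ} (hw : 0 < w) :
    ∫ β : ℝ, gw w β * ‖SX X G β‖ ^ 2 = ∑ x ∈ X, ∑ x' ∈ X, gs w (G x - G x') := by
  have h : ∫ β : ℝ, ((gw w β * ‖SX X G β‖ ^ 2 : ℝ) : ℂ) =
      ((∑ x ∈ X, ∑ x' ∈ X, gs w (G x - G x') : ℝ) : ℂ) := by
    have h1 : ∀ β : ℝ, ((gw w β * ‖SX X G β‖ ^ 2 : ℝ) : ℂ) =
        ∑ x ∈ X, ∑ x' ∈ X, (gw w β : ℂ) * ee (β * (G x - G x')) := by
      intro β
      rw [Complex.ofReal_mul, sq_SX, mul_sum]
      exact sum_congr rfl fun x _ => mul_sum _ _ _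
    simp_rw [h1]
    rw [integral_finsetSum _ fun x _ => integrable_finsetSum _ fun x' _ => integrable_gw_ee hw _]
    push_cast
    refine sum_congr rfl fun x _ => ?_
    rw [integral_finsetSum _ fun x' _ => integrable_gw_ee hw _]
    exact sum_congr rfl fun x' _ => integral_gw hw _
  rw [integral_complex_ofReal] at h
  exact_mod_cast h

theorem int_sq' {α : Type} (X : Finset α) (G : α → ℝ) {w : ℝ} (hw : 0 < w) :
    Integrable (fun β : ℝ => gw w β * ‖SX X G β‖ ^ 2) := by
  refine Integrable.mono' (g := fun β => gw w β * (#X : ℝ) ^ 2)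
    ((integrable_gw hw).mul_const _) ?_ ?_
  · exact ((continuous_gw w).mul ((cont_SX X G).norm.pow 2)).aestronglyMeasurable
  · refine ae_of_all _ fun β => ?_
    rw [norm_mul, Real.norm_of_nonneg (gw_nonneg hw β), Real.norm_of_nonneg (by positivity)]
    exact mul_le_mul_of_nonneg_left (by gcongr; exact norm_SX X G β) (gw_nonneg hw β)

theorem gs_le {w : ℝ} (hw : 0 < w) (hw1 : w ≤ 1) (t : ℝ) : gs w t ≤ gs 1 t := by
  unfold gs
  apply Real.exp_le_exp.2
  have h1 : w ^ 2 ≤ 1 := pow_le_one₀ hw.le hw1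
  have h2 : 0 ≤ Real.pi * t ^ 2 := by positivity
  have h3 : Real.pi * t ^ 2 / 1 ^ 2 ≤ Real.pi * t ^ 2 / w ^ 2 := by
    rw [one_pow, div_one, le_div_iff₀ (by positivity)]
    nlinarith
  linarith

theorem s_CORE : Pool.Agent.L7h67.WA.S_CORE := by
  intro α γ XA XB GA GB F a P w B η MA MB τ hw hw1 hB hη hmaj hMA hMB
  rcases XA.eq_empty_or_nonempty with rfl | hneA
  · simp only [sum_empty, abs_zero]
    positivity
  rcases XB.eq_empty_or_nonempty with rfl | hneB
  · simp only [sum_empty, sum_const_zero, abs_zero]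
    positivity
  have hA1 : 1 ≤ MA := by
    obtain ⟨x, hx⟩ := hneA
    have h1 : gs 1 (GA x - GA x) ≤ ∑ x' ∈ XA, gs 1 (GA x - GA x') :=
      single_le_sum (f := fun x' => gs 1 (GA x - GA x')) (fun _ _ => (Real.exp_pos _).le) hx
    have h2 : ∑ x' ∈ XA, gs 1 (GA x - GA x') ≤ ∑ x ∈ XA, ∑ x' ∈ XA, gs 1 (GA x - GA x') :=
      single_le_sum (f := fun x => ∑ x' ∈ XA, gs 1 (GA x - GA x'))
        (fun _ _ => sum_nonneg fun _ _ => (Real.exp_pos _).le) hx
    have h3 : gs 1 (GA x - GA x) = 1 := by unfold gs; simp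
    linarith
  have hB1 : 1 ≤ MB := by
    obtain ⟨x, hx⟩ := hneB
    have h1 : gs 1 (GB x - GB x) ≤ ∑ x' ∈ XB, gs 1 (GB x - GB x') :=
      single_le_sum (f := fun x' => gs 1 (GB x - GB x')) (fun _ _ => (Real.exp_pos _).le) hx
    have h2 : ∑ x' ∈ XB, gs 1 (GB x - GB x') ≤ ∑ x ∈ XB, ∑ x' ∈ XB, gs 1 (GB x - GB x') :=
      single_le_sum (f := fun x => ∑ x' ∈ XB, gs 1 (GB x - GB x'))
        (fun _ _ => sum_nonneg fun _ _ => (Real.exp_pos _).le) hx
    have h3 : gs 1 (GB x - GB x) = 1 := by unfold gs; simp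
    linarith
  have hIA : ∫ β : ℝ, gw w β * ‖SX XA GA β‖ ^ 2 ≤ MA := by
    rw [int_sq XA GA hw]
    refine le_trans ?_ hMA
    exact sum_le_sum fun x _ => sum_le_sum fun x' _ => gs_le hw hw1 _
  have hIB : ∫ β : ℝ, gw w β * ‖SX XB GB β‖ ^ 2 ≤ MB := by
    rw [int_sq XB GB hw]
    refine le_trans ?_ hMB
    exact sum_le_sum fun x _ => sum_le_sum fun x' _ => gs_le hw hw1 _
  set lam : ℝ := Real.sqrt MB / Real.sqrt MA with hlam
  have hsA : 0 < Real.sqrt MA := Real.sqrt_pos.2 (by linarith)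
  have hsB : 0 < Real.sqrt MB := Real.sqrt_pos.2 (by linarith)
  have hlam0 : 0 < lam := div_pos hsB hsA
  -- the identity
  have hid : ((∑ x ∈ XA, ∑ y ∈ XB, (GS F a P w (τ - GA x - GB y) -
      GI F a P w (τ - GA x - GB y)) : ℝ) : ℂ) =
      ∫ β : ℝ, (gw w β : ℂ) * ((WS F a P β - WI F a P β) *
        (SX XA GA β * SX XB GB β * ee (-(β * τ)))) := by
    have h1 : ∀ τ' : ℝ, ((GS F a P w τ' - GI F a P w τ' : ℝ) : ℂ) =
        ∫ β : ℝ, (gw w β : ℂ) * ((WS F a P β - WI F a P β) * ee (-(β * τ'))) := by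
      intro τ'
      rw [Complex.ofReal_sub, ← gs_eq_sum hw, ← gi_eq_int hw, ← integral_sub]
      · congr 1
        funext β
        ring
      · refine integrable_bdd hw _ ((cont_WS F a P).mul (continuous_ee.comp (by fun_prop)))
          (3 * ((a : ℝ) * P)) fun β => ?_
        rw [norm_mul, norm_ee, mul_one]
        exact norm_WS F a P β
      · refine integrable_bdd hw _ ((cont_WI F a P).mul (continuous_ee.comp (by fun_prop)))
          (3 * ((a : ℝ) * P)) fun β => ?_
        rw [norm_mul, norm_ee, mul_one]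
        exact norm_WI F a P β
    have hint : ∀ τ' : ℝ, Integrable (fun β : ℝ =>
        (gw w β : ℂ) * ((WS F a P β - WI F a P β) * ee (-(β * τ')))) := by
      intro τ'
      refine integrable_bdd hw _ (((cont_WS F a P).sub (cont_WI F a P)).mul
        (continuous_ee.comp (by fun_prop))) (3 * ((a : ℝ) * P) + 3 * ((a : ℝ) * P)) fun β => ?_
      rw [norm_mul, norm_ee, mul_one]
      exact (norm_sub_le _ _).trans (add_le_add (norm_WS F a P β) (norm_WI F a P β))
    rw [Complex.ofReal_sum]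
    simp_rw [Complex.ofReal_sum, h1]
    rw [show (∑ x ∈ XA, ∑ y ∈ XB, ∫ β : ℝ, (gw w β : ℂ) * ((WS F a P β - WI F a P β) *
        ee (-(β * (τ - GA x - GB y))))) = ∫ β : ℝ, ∑ x ∈ XA, ∑ y ∈ XB, (gw w β : ℂ) *
        ((WS F a P β - WI F a P β) * ee (-(β * (τ - GA x - GB y)))) by
      rw [integral_finsetSum _ fun x _ => integrable_finsetSum _ fun y _ => hint _]
      refine sum_congr rfl fun x _ => ?_
      rw [integral_finsetSum _ fun y _ => hint _]]
    congr 1
    funext β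
    unfold SX
    rw [sum_mul_sum, sum_mul, mul_sum, mul_sum]
    refine sum_congr rfl fun x _ => ?_
    rw [sum_mul, mul_sum, mul_sum]
    refine sum_congr rfl fun y _ => ?_
    rw [← ee_add, ← ee_add]
    congr 3
    ring
  -- the bound of the integrand
  set E0 : ℝ := Real.exp (-(Real.pi * w ^ 2 * B ^ 2 / 2)) with hE0
  set K : ℝ := (#XA : ℝ) * #XB * (6 * ((a : ℝ) * P)) * E0 with hK
  have hK0 : 0 ≤ K := by positivity
  have hexp_int : Integrable (fun β : ℝ => w * Real.exp (-(Real.pi * w ^ 2 / 2) * β ^ 2)) :=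
    (integrable_exp_neg_mul_sq (b := Real.pi * w ^ 2 / 2) (by positivity)).const_mul w
  have hbound : ∀ β : ℝ, ‖(gw w β : ℂ) * ((WS F a P β - WI F a P β) *
        (SX XA GA β * SX XB GB β * ee (-(β * τ))))‖ ≤
      (η * (lam / 2) * (gw w β * ‖SX XA GA β‖ ^ 2) +
        η * (1 / (2 * lam)) * (gw w β * ‖SX XB GB β‖ ^ 2)) +
        K * (w * Real.exp (-(Real.pi * w ^ 2 / 2) * β ^ 2)) := by
    intro β
    have hg := gw_nonneg hw β
    rw [norm_mul, norm_mul, norm_mul, norm_mul, norm_ee, mul_one, Complex.norm_real,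
      Real.norm_of_nonneg hg]
    have hab : ‖SX XA GA β‖ * ‖SX XB GB β‖ ≤
        lam / 2 * ‖SX XA GA β‖ ^ 2 + 1 / (2 * lam) * ‖SX XB GB β‖ ^ 2 := by
      have h1 : 0 ≤ (lam * ‖SX XA GA β‖ - ‖SX XB GB β‖) ^ 2 := sq_nonneg _
      have h2 : lam / 2 * ‖SX XA GA β‖ ^ 2 + 1 / (2 * lam) * ‖SX XB GB β‖ ^ 2 -
          ‖SX XA GA β‖ * ‖SX XB GB β‖ =
          (lam * ‖SX XA GA β‖ - ‖SX XB GB β‖) ^ 2 / (2 * lam) := by
        field_simp
        ring
      have h3 : 0 ≤ (lam * ‖SX XA GA β‖ - ‖SX XB GB β‖) ^ 2 / (2 * lam) := by positivity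
      linarith
    rcases le_or_gt |β| B with h | h
    · have h1 := hmaj β h
      have h2 : gw w β * (‖WS F a P β - WI F a P β‖ * (‖SX XA GA β‖ * ‖SX XB GB β‖)) ≤
          gw w β * (η * (lam / 2 * ‖SX XA GA β‖ ^ 2 + 1 / (2 * lam) * ‖SX XB GB β‖ ^ 2)) := by
        refine mul_le_mul_of_nonneg_left (mul_le_mul h1 hab (by positivity) hη) hg
      have h3 : 0 ≤ K * (w * Real.exp (-(Real.pi * w ^ 2 / 2) * β ^ 2)) := by positivity
      linarith
    · have h1 : ‖WS F a P β - WI F a P β‖ ≤ 6 * ((a : ℝ) * P) := by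
        have := (norm_sub_le (WS F a P β) (WI F a P β)).trans
          (add_le_add (norm_WS F a P β) (norm_WI F a P β))
        linarith
      have h2 : ‖SX XA GA β‖ * ‖SX XB GB β‖ ≤ (#XA : ℝ) * #XB :=
        mul_le_mul (norm_SX XA GA β) (norm_SX XB GB β) (norm_nonneg _) (by positivity)
      have h3 : gw w β ≤ E0 * (w * Real.exp (-(Real.pi * w ^ 2 / 2) * β ^ 2)) := by
        have h4 : Real.exp (-(Real.pi * w ^ 2) * β ^ 2) ≤
            E0 * Real.exp (-(Real.pi * w ^ 2 / 2) * β ^ 2) := by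
          rw [hE0, ← Real.exp_add]
          apply Real.exp_le_exp.2
          have h5 : B ^ 2 ≤ β ^ 2 := by
            rw [← sq_abs β]
            exact pow_le_pow_left₀ hB h.le 2
          have h6 : 0 ≤ Real.pi * w ^ 2 / 2 := by positivity
          nlinarith [mul_le_mul_of_nonneg_left h5 h6]
        unfold gw
        nlinarith [mul_le_mul_of_nonneg_left h4 hw.le]
      have h4 : gw w β * (‖WS F a P β - WI F a P β‖ * (‖SX XA GA β‖ * ‖SX XB GB β‖)) ≤
          (E0 * (w * Real.exp (-(Real.pi * w ^ 2 / 2) * β ^ 2))) *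
            ((6 * ((a : ℝ) * P)) * ((#XA : ℝ) * #XB)) := by
        refine mul_le_mul h3 (mul_le_mul h1 h2 (by positivity) (by positivity)) (by positivity)
          (by positivity)
      have h5 : (E0 * (w * Real.exp (-(Real.pi * w ^ 2 / 2) * β ^ 2))) *
            ((6 * ((a : ℝ) * P)) * ((#XA : ℝ) * #XB)) =
          K * (w * Real.exp (-(Real.pi * w ^ 2 / 2) * β ^ 2)) := by rw [hK]; ring
      have h6 : 0 ≤ η * (lam / 2) * (gw w β * ‖SX XA GA β‖ ^ 2) +
        η * (1 / (2 * lam)) * (gw w β * ‖SX XB GB β‖ ^ 2) := by positivity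
      linarith
  -- integrate
  have hI1 : Integrable (fun β : ℝ => η * (lam / 2) * (gw w β * ‖SX XA GA β‖ ^ 2)) :=
    (int_sq' XA GA hw).const_mul _
  have hI2 : Integrable (fun β : ℝ => η * (1 / (2 * lam)) * (gw w β * ‖SX XB GB β‖ ^ 2)) :=
    (int_sq' XB GB hw).const_mul _
  have hI3 : Integrable (fun β : ℝ => K * (w * Real.exp (-(Real.pi * w ^ 2 / 2) * β ^ 2))) :=
    hexp_int.const_mul _
  have hfin := norm_integral_le_of_norm_le ((hI1.add hI2).add hI3)
    (ae_of_all _ fun β => hbound β)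
  rw [← hid, Complex.norm_real, Real.norm_eq_abs] at hfin
  refine hfin.trans ?_
  rw [integral_add' (hI1.add hI2) hI3, integral_add' hI1 hI2, integral_const_mul,
    integral_const_mul, integral_const_mul, integral_const_mul, integral_gaussian]
  have h1 : η * (lam / 2) * (∫ β : ℝ, gw w β * ‖SX XA GA β‖ ^ 2) +
      η * (1 / (2 * lam)) * (∫ β : ℝ, gw w β * ‖SX XB GB β‖ ^ 2) ≤ η * Real.sqrt (MA * MB) := by
    have h2 : η * (lam / 2) * (∫ β : ℝ, gw w β * ‖SX XA GA β‖ ^ 2) ≤ η * (lam / 2) * MA :=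
      mul_le_mul_of_nonneg_left hIA (by positivity)
    have h3 : η * (1 / (2 * lam)) * (∫ β : ℝ, gw w β * ‖SX XB GB β‖ ^ 2) ≤
        η * (1 / (2 * lam)) * MB := mul_le_mul_of_nonneg_left hIB (by positivity)
    have h4 : η * (lam / 2) * MA + η * (1 / (2 * lam)) * MB = η * Real.sqrt (MA * MB) := by
      rw [Real.sqrt_mul (by linarith : 0 ≤ MA), hlam]
      have e1 : MA = Real.sqrt MA * Real.sqrt MA := (Real.mul_self_sqrt (by linarith)).symm
      have e2 : MB = Real.sqrt MB * Real.sqrt MB := (Real.mul_self_sqrt (by linarith)).symm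
      have h5 : Real.sqrt MB / Real.sqrt MA / 2 * MA = Real.sqrt MA * Real.sqrt MB / 2 := by
        nth_rewrite 2 [e1]
        field_simp
      have h6 : 1 / (2 * (Real.sqrt MB / Real.sqrt MA)) * MB =
          Real.sqrt MA * Real.sqrt MB / 2 := by
        nth_rewrite 2 [e2]
        field_simp
      calc _ = η * (Real.sqrt MB / Real.sqrt MA / 2 * MA +
            1 / (2 * (Real.sqrt MB / Real.sqrt MA)) * MB) := by ring
        _ = _ := by rw [h5, h6]; ring
    linarith
  have h2 : K * (w * Real.sqrt (Real.pi / (Real.pi * w ^ 2 / 2))) ≤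
      12 * ((#XA : ℝ) * #XB * (a * P)) * E0 := by
    have h3 : Real.pi / (Real.pi * w ^ 2 / 2) = 2 * (1 / w) ^ 2 := by
      have := Real.pi_pos.ne'
      field_simp
    have h4 : w * Real.sqrt (Real.pi / (Real.pi * w ^ 2 / 2)) ≤ 2 := by
      rw [h3, Real.sqrt_mul (by norm_num), Real.sqrt_sq (by positivity)]
      have h5 : Real.sqrt 2 ≤ 2 := by
        rw [Real.sqrt_le_left (by norm_num)]; norm_num
      have h6 : w * (Real.sqrt 2 * (1 / w)) = Real.sqrt 2 := by field_simp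
      linarith
    calc K * (w * Real.sqrt (Real.pi / (Real.pi * w ^ 2 / 2))) ≤ K * 2 :=
          mul_le_mul_of_nonneg_left h4 hK0
      _ = _ := by rw [hK]; ring
  linarith

end Pool.Agent.L7h37.WA
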