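import Mathlib
import Pool.Agent.L7h67.WA.Stm

/-!
# Project WA: power sums of consecutive exponents separate points of separated intervals
-/

set_option autoImplicit false

namespace Pool.Agent.L7h37.WA

open Finset Polynomial

/-- a polynomial of small degree with prescribed signs on separated intervals -/
theorem exists_sign_poly (t : ℕ) : ∀ (r : ℕ) (s : ℕ → ℝ), (∀ i, s i = 1 ∨ s i = -1) →
    ∃ Q : ℝ[X], Q.natDegree ≤ r ∧
      (∀ i ≤ r, ∀ z : ℝ, (8 : ℝ) ^ (t + i) ≤ z → z ≤ 4 * (8 : ℝ) ^ (t + i) →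
        1 ≤ s i * Q.eval z) ∧
      (∀ z : ℝ, (8 : ℝ) ^ (t + r) ≤ z → 1 ≤ s r * Q.eval z) := by
  intro r
  induction r with
  | zero =>
    intro s hs
    refine ⟨C (s 0), by simp, ?_, ?_⟩
    · intro i hi z _ _
      obtain rfl : i = 0 := by omega
      rcases hs 0 with h | h <;> simp [h]
    · intro z _
      rcases hs 0 with h | h <;> simp [h]
  | succ r ih =>
    intro s hs
    obtain ⟨Q, hd, h1, h2⟩ := ih s hs
    by_cases hc : s (r + 1) = s r
    · refine ⟨Q, by omega, ?_, ?_⟩
      · intro i hi z hz1 hz2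
        rcases Nat.lt_or_ge r i with h | h
        · obtain rfl : i = r + 1 := by omega
          rw [hc]
          refine h2 z (le_trans ?_ hz1)
          exact pow_le_pow_right₀ (by norm_num) (by omega)
        · exact h1 i h z hz1 hz2
      · intro z hz
        rw [hc]
        refine h2 z (le_trans ?_ hz)
        exact pow_le_pow_right₀ (by norm_num) (by omega)
    · have hneg : s (r + 1) = - s r := by
        rcases hs (r + 1) with h | h <;> rcases hs r with h' | h' <;>
          simp [h, h'] at hc ⊢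
      have hp1 : (1 : ℝ) ≤ (8 : ℝ) ^ (t + r) := one_le_pow₀ (by norm_num)
      refine ⟨(C (6 * (8 : ℝ) ^ (t + r)) - X) * Q, ?_, ?_, ?_⟩
      · refine (natDegree_mul_le).trans ?_
        have : (C (6 * (8 : ℝ) ^ (t + r)) - (X : ℝ[X])).natDegree ≤ 1 :=
          (natDegree_sub_le _ _).trans (by rw [natDegree_C, natDegree_X]; simp)
        omega
      · intro i hi z hz1 hz2
        rcases Nat.lt_or_ge r i with h | h
        · obtain rfl : i = r + 1 := by omega
          have e1 : (8 : ℝ) ^ (t + (r + 1)) = 8 * (8 : ℝ) ^ (t + r) := by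
            rw [← add_assoc, pow_succ]; ring
          have h3 := h2 z (by linarith)
          simp only [eval_mul, eval_sub, eval_C, eval_X, hneg]
          have h4 : (1 : ℝ) ≤ z - 6 * (8 : ℝ) ^ (t + r) := by linarith
          nlinarith [mul_le_mul h4 h3 (by norm_num) (by linarith)]
        · have h3 := h1 i h z hz1 hz2
          simp only [eval_mul, eval_sub, eval_C, eval_X]
          have h5 : (8 : ℝ) ^ (t + i) ≤ (8 : ℝ) ^ (t + r) :=
            pow_le_pow_right₀ (by norm_num) (by omega)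
          have h4 : (1 : ℝ) ≤ 6 * (8 : ℝ) ^ (t + r) - z := by linarith
          nlinarith [mul_le_mul h4 h3 (by norm_num) (by linarith)]
      · intro z hz
        have e1 : (8 : ℝ) ^ (t + (r + 1)) = 8 * (8 : ℝ) ^ (t + r) := by
          rw [← add_assoc, pow_succ]; ring
        have h3 := h2 z (by linarith)
        simp only [eval_mul, eval_sub, eval_C, eval_X, hneg]
        have h4 : (1 : ℝ) ≤ z - 6 * (8 : ℝ) ^ (t + r) := by linarith
        nlinarith [mul_le_mul h4 h3 (by norm_num) (by linarith)]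

/-- the antiderivative of `z ^ m * Q z` -/
noncomputable def anti (Q : ℝ[X]) (m r : ℕ) (z : ℝ) : ℝ :=
  ∑ j ∈ range r, Q.coeff j / ((m + 1 + j : ℕ) : ℝ) * z ^ (m + 1 + j)

theorem hasDerivAt_anti (Q : ℝ[X]) (m r : ℕ) (hr : Q.natDegree < r) (z : ℝ) :
    HasDerivAt (anti Q m r) (z ^ m * Q.eval z) z := by
  have h : HasDerivAt (anti Q m r)
      (∑ j ∈ range r, Q.coeff j / ((m + 1 + j : ℕ) : ℝ) *
        (((m + 1 + j : ℕ) : ℝ) * z ^ (m + 1 + j - 1))) z := by
    unfold anti
    exact HasDerivAt.fun_sum fun j _ => (hasDerivAt_pow (m + 1 + j) z).const_mul _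
  convert h using 1
  rw [eval_eq_sum_range' hr, mul_sum]
  refine sum_congr rfl fun j _ => ?_
  have : ((m + 1 + j : ℕ) : ℝ) ≠ 0 := by positivity
  have e : m + 1 + j - 1 = m + j := by omega
  rw [e, pow_add]
  field_simp

theorem anti_sub (Q : ℝ[X]) (m r : ℕ) (hr : Q.natDegree < r) (s a b : ℝ) (ha : 1 ≤ a)
    (h : ∀ z, a ≤ z → z ≤ b → 1 ≤ s * Q.eval z) {x y : ℝ} (hx : a ≤ x) (hxy : x ≤ y) (hy : y ≤ b) :
    y - x ≤ s * (anti Q m r y - anti Q m r x) := by
  have h1 : ∀ z, HasDerivAt (fun z => s * anti Q m r z) (s * (z ^ m * Q.eval z)) z :=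
    fun z => (hasDerivAt_anti Q m r hr z).const_mul s
  have := Convex.mul_sub_le_image_sub_of_le_deriv (convex_Icc a b)
    (f := fun z => s * anti Q m r z) (C := 1)
    (fun z _ => (h1 z).continuousAt.continuousWithinAt)
    (fun z _ => (h1 z).differentiableAt.differentiableWithinAt)
    (by
      intro z hz
      rw [interior_Icc] at hz
      rw [(h1 z).deriv]
      have h2 := h z hz.1.le hz.2.le
      have h3 : (1 : ℝ) ≤ z ^ m := one_le_pow₀ (ha.trans hz.1.le)
      nlinarith [mul_le_mul h3 h2 (by norm_num) (by linarith)])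
    x ⟨hx, hxy.trans hy⟩ y ⟨hx.trans hxy, hy⟩ hxy
  linarith

theorem s_SEP : Pool.Agent.L7h67.WA.S_SEP := by
  intro r m t
  rcases r with _ | r
  · exact ⟨1, one_pos, fun u v _ _ => by simp⟩
  · -- the sign patterns
    have key : ∀ σ : Fin (r + 1) → Bool, ∃ Q : ℝ[X], Q.natDegree < r + 1 ∧
        ∀ i : Fin (r + 1), ∀ z : ℝ, (8 : ℝ) ^ (t + i.val) ≤ z → z ≤ 4 * (8 : ℝ) ^ (t + i.val) →
          1 ≤ (if σ i then (1 : ℝ) else -1) * Q.eval z := by
      intro σ
      obtain ⟨Q, hd, h1, _⟩ := exists_sign_poly t r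
        (fun i => if h : i < r + 1 then (if σ ⟨i, h⟩ then (1 : ℝ) else -1) else 1)
        (by intro i; split_ifs <;> simp)
      refine ⟨Q, by omega, fun i z hz1 hz2 => ?_⟩
      have := h1 i.val (by omega) z hz1 hz2
      rw [dif_pos i.isLt] at this
      exact this
    choose Q hQd hQ using key
    refine ⟨1 + ∑ σ, ∑ j ∈ range (r + 1), |(Q σ).coeff j / ((m + 1 + j : ℕ) : ℝ)|, by positivity,
      ?_⟩
    intro u v hu hv
    set σ : Fin (r + 1) → Bool := fun i => decide (v i ≤ u i) with hσ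
    have h1 : ∀ i, |u i - v i| ≤ anti (Q σ) m (r + 1) (u i) - anti (Q σ) m (r + 1) (v i) := by
      intro i
      have ha : (1 : ℝ) ≤ (8 : ℝ) ^ (t + i.val) := one_le_pow₀ (by norm_num)
      rcases le_total (v i) (u i) with h | h
      · have hs : σ i = true := by simp [hσ, h]
        have := anti_sub (Q σ) m (r + 1) (hQd σ) 1 _ _ ha
          (fun z hz1 hz2 => by simpa [hs] using hQ σ i z hz1 hz2) (hv i).1 h (hu i).2
        rw [abs_of_nonneg (by linarith)]
        linarith
      · rcases eq_or_lt_of_le h with h' | h'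
        · rw [h']; simp
        · have hs : σ i = false := by simp [hσ, h']
          have := anti_sub (Q σ) m (r + 1) (hQd σ) (-1) _ _ ha
            (fun z hz1 hz2 => by simpa [hs] using hQ σ i z hz1 hz2) (hu i).1 h (hv i).2
          rw [abs_of_nonpos (by linarith)]
          linarith
    calc ∑ i, |u i - v i| ≤ ∑ i, (anti (Q σ) m (r + 1) (u i) - anti (Q σ) m (r + 1) (v i)) :=
          sum_le_sum fun i _ => h1 i
      _ = ∑ j ∈ range (r + 1), (Q σ).coeff j / ((m + 1 + j : ℕ) : ℝ) *
            ∑ i, (u i ^ (m + 1 + j) - v i ^ (m + 1 + j)) := by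
          simp only [anti, ← sum_sub_distrib]
          rw [sum_comm]
          refine sum_congr rfl fun j _ => ?_
          rw [mul_sum]
          refine sum_congr rfl fun i _ => ?_
          ring
      _ ≤ ∑ j ∈ range (r + 1), (1 + ∑ σ, ∑ j ∈ range (r + 1),
            |(Q σ).coeff j / ((m + 1 + j : ℕ) : ℝ)|) *
            |∑ i, (u i ^ (m + 1 + j) - v i ^ (m + 1 + j))| := by
          refine sum_le_sum fun j hj => ?_
          refine (le_abs_self _).trans ?_
          rw [abs_mul]
          refine mul_le_mul_of_nonneg_right ?_ (abs_nonneg _)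
          have h2 : |(Q σ).coeff j / ((m + 1 + j : ℕ) : ℝ)| ≤
              ∑ j ∈ range (r + 1), |(Q σ).coeff j / ((m + 1 + j : ℕ) : ℝ)| :=
            single_le_sum (f := fun j => |(Q σ).coeff j / ((m + 1 + j : ℕ) : ℝ)|)
              (fun _ _ => abs_nonneg _) hj
          have h3 : ∑ j ∈ range (r + 1), |(Q σ).coeff j / ((m + 1 + j : ℕ) : ℝ)| ≤
              ∑ σ, ∑ j ∈ range (r + 1), |(Q σ).coeff j / ((m + 1 + j : ℕ) : ℝ)| :=
            single_le_sum (f := fun σ => ∑ j ∈ range (r + 1),
              |(Q σ).coeff j / ((m + 1 + j : ℕ) : ℝ)|)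
              (fun _ _ => sum_nonneg fun _ _ => abs_nonneg _) (mem_univ σ)
          linarith
      _ = _ := by rw [mul_sum]

end Pool.Agent.L7h37.WA
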