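import Mathlib
import Pool.Agent.L7h67.WA.Stm
import Pool.Agent.L7h37.WA.Sep

/-!
# Project WA: LOC, counting from SEP
-/

set_option autoImplicit false

namespace Pool.Agent.L7h37.WA

open Finset

/-- naturals with pairwise distances at most `L` -/
theorem card_le_of_close (S : Finset ℕ) (L : ℝ) (hL : 0 ≤ L)
    (h : ∀ a ∈ S, ∀ b ∈ S, |(a : ℝ) - b| ≤ L) : (#S : ℝ) ≤ L + 1 := by
  rcases S.eq_empty_or_nonempty with rfl | hne
  · simp; linarith
  · have hsub : S ⊆ Icc (S.min' hne) (S.min' hne + ⌊L⌋₊) := by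
      intro a ha
      rw [mem_Icc]
      refine ⟨S.min'_le a ha, ?_⟩
      have h1 := (abs_le.1 (h a ha _ (S.min'_mem hne))).2
      have h2 : a - S.min' hne ≤ ⌊L⌋₊ := by
        apply Nat.le_floor
        have h3 := S.min'_le a ha
        rw [Nat.cast_sub h3]
        exact h1
      omega
    have := card_le_card hsub
    rw [Nat.card_Icc] at this
    have h4 : #S ≤ ⌊L⌋₊ + 1 := by omega
    have h5 : (#S : ℝ) ≤ (⌊L⌋₊ : ℝ) + 1 := by exact_mod_cast h4
    linarith [Nat.floor_le hL]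

theorem s_LOC : Pool.Agent.L7h67.WA.S_LOC := by
  intro r m t hr
  obtain ⟨q, rfl⟩ : ∃ q, r = q + 1 := ⟨r - 1, by omega⟩
  obtain ⟨C1, hC1, H1⟩ := s_SEP (q + 1) m t
  obtain ⟨C2, hC2, H2⟩ := s_SEP q (m + 1) (t + 1)
  set D : ℝ := 2 * C2 * (q + 1) with hD
  have hDpos : 0 ≤ D := by positivity
  set K : ℝ := 2 * C1 * (q + 1) with hK
  have hKpos : 0 ≤ K := by positivity
  refine ⟨(K + 1) * (2 * D + 1) ^ (q + 1), by positivity, ?_⟩
  intro P T hP hT1 hT2 c X hX hc
  have hP0 : (0 : ℝ) < P := by exact_mod_cast hP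
  have hT0 : 0 < T := lt_of_lt_of_le (by positivity) hT1
  -- scaled points
  have hscale : ∀ x ∈ X, ∀ i : Fin (q + 1), (8 : ℝ) ^ (t + i.val) ≤ (x i : ℝ) / P ∧
      (x i : ℝ) / P ≤ 4 * (8 : ℝ) ^ (t + i.val) := by
    intro x hx i
    obtain ⟨h1, h2⟩ := hX x hx i
    constructor
    · rw [le_div_iff₀ hP0]; exact_mod_cast h1
    · rw [div_le_iff₀ hP0]
      have : (x i : ℝ) ≤ 4 * ((8 : ℝ) ^ (t + i.val) * P) := by exact_mod_cast h2
      linarith
  have hdiff : ∀ x ∈ X, ∀ y ∈ X, ∀ j ∈ range (q + 1),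
      |∑ i, ((x i : ℝ) ^ (m + 1 + j) - (y i : ℝ) ^ (m + 1 + j))| ≤ 2 * T := by
    intro x hx y hy j hj
    rw [sum_sub_distrib]
    have h1 := abs_le.1 (hc x hx j hj)
    have h2 := abs_le.1 (hc y hy j hj)
    rw [abs_le]
    constructor <;> linarith
  have hsc : ∀ (x y : Fin (q + 1) → ℕ) (n : ℕ),
      ∑ i, (((x i : ℝ) / P) ^ n - ((y i : ℝ) / P) ^ n) =
        (∑ i, ((x i : ℝ) ^ n - (y i : ℝ) ^ n)) / (P : ℝ) ^ n := by
    intro x y n
    rw [sum_div]
    refine sum_congr rfl fun i _ => ?_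
    rw [div_pow, div_pow, sub_div]
  -- step 1: closeness of all coordinates
  have hclose : ∀ x ∈ X, ∀ y ∈ X, ∀ i, |(x i : ℝ) - y i| ≤ K * T / (P : ℝ) ^ m := by
    intro x hx y hy i
    have h := H1 (fun i => (x i : ℝ) / P) (fun i => (y i : ℝ) / P) (hscale x hx) (hscale y hy)
    have h2 : ∑ j ∈ range (q + 1), |∑ i, (((x i : ℝ) / P) ^ (m + 1 + j) -
        ((y i : ℝ) / P) ^ (m + 1 + j))| ≤ ∑ j ∈ range (q + 1), 2 * T / (P : ℝ) ^ (m + 1) := by
      refine sum_le_sum fun j hj => ?_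
      rw [hsc, abs_div, abs_of_pos (show (0 : ℝ) < (P : ℝ) ^ (m + 1 + j) by positivity)]
      refine div_le_div₀ (by positivity) (hdiff x hx y hy j hj) (by positivity) ?_
      exact pow_le_pow_right₀ (by exact_mod_cast hP) (by omega)
    rw [sum_const, card_range, nsmul_eq_mul] at h2
    have h3 : |(x i : ℝ) / P - (y i : ℝ) / P| ≤ ∑ i, |(x i : ℝ) / P - (y i : ℝ) / P| :=
      single_le_sum (f := fun i => |(x i : ℝ) / P - (y i : ℝ) / P|)
        (fun _ _ => abs_nonneg _) (mem_univ i)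
    have h4 : |(x i : ℝ) / P - (y i : ℝ) / P| = |(x i : ℝ) - y i| / P := by
      rw [← sub_div, abs_div, abs_of_pos hP0]
    rw [h4] at h3
    have h5 : |(x i : ℝ) - y i| / P ≤ C1 * (((q + 1 : ℕ) : ℝ) * (2 * T / (P : ℝ) ^ (m + 1))) :=
      h3.trans (h.trans (mul_le_mul_of_nonneg_left h2 hC1.le))
    rw [div_le_iff₀ hP0] at h5
    refine h5.trans (le_of_eq ?_)
    rw [hK]
    push_cast
    field_simp
    rw [pow_succ]; ring
  -- step 2: equal first coordinates
  have hclose2 : ∀ x ∈ X, ∀ y ∈ X, x 0 = y 0 → ∀ i, |(x i : ℝ) - y i| ≤ D := by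
    intro x hx y hy h0 i
    induction i using Fin.cases with
    | zero => rw [h0]; simpa using hDpos
    | succ i =>
      have hs : ∀ x ∈ X, ∀ i : Fin q, (8 : ℝ) ^ (t + 1 + i.val) ≤ (x i.succ : ℝ) / P ∧
          (x i.succ : ℝ) / P ≤ 4 * (8 : ℝ) ^ (t + 1 + i.val) := by
        intro x hx i
        have := hscale x hx i.succ
        rw [Fin.val_succ, show t + (i.val + 1) = t + 1 + i.val by ring] at this
        exact this
      have h := H2 (fun i => (x i.succ : ℝ) / P) (fun i => (y i.succ : ℝ) / P) (hs x hx) (hs y hy)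
      have h2 : ∑ j ∈ range q, |∑ i : Fin q, (((x i.succ : ℝ) / P) ^ (m + 1 + 1 + j) -
          ((y i.succ : ℝ) / P) ^ (m + 1 + 1 + j))| ≤
          ∑ j ∈ range q, 2 * T / (P : ℝ) ^ (m + 1 + 1) := by
        refine sum_le_sum fun j hj => ?_
        have e1 : ∑ i : Fin q, (((x i.succ : ℝ) / P) ^ (m + 1 + 1 + j) -
          ((y i.succ : ℝ) / P) ^ (m + 1 + 1 + j)) =
            ∑ i, (((x i : ℝ) / P) ^ (m + 1 + (j + 1)) - ((y i : ℝ) / P) ^ (m + 1 + (j + 1))) := by
          rw [Fin.sum_univ_succ, h0, sub_self, zero_add]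
          refine sum_congr rfl fun i _ => ?_
          rw [show m + 1 + 1 + j = m + 1 + (j + 1) by ring]
        rw [e1, hsc, abs_div,
          abs_of_pos (show (0 : ℝ) < (P : ℝ) ^ (m + 1 + (j + 1)) by positivity)]
        refine div_le_div₀ (by positivity) (hdiff x hx y hy (j + 1)
          (by rw [mem_range] at hj ⊢; omega)) (by positivity) ?_
        exact pow_le_pow_right₀ (by exact_mod_cast hP) (by omega)
      rw [sum_const, card_range, nsmul_eq_mul] at h2
      have h3 : |(x i.succ : ℝ) / P - (y i.succ : ℝ) / P| ≤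
          ∑ i : Fin q, |(x i.succ : ℝ) / P - (y i.succ : ℝ) / P| :=
        single_le_sum (f := fun i : Fin q => |(x i.succ : ℝ) / P - (y i.succ : ℝ) / P|)
          (fun _ _ => abs_nonneg _) (mem_univ i)
      have h4 : |(x i.succ : ℝ) / P - (y i.succ : ℝ) / P| = |(x i.succ : ℝ) - y i.succ| / P := by
        rw [← sub_div, abs_div, abs_of_pos hP0]
      rw [h4] at h3
      have h5 : |(x i.succ : ℝ) - y i.succ| / P ≤
          C2 * ((q : ℝ) * (2 * T / (P : ℝ) ^ (m + 1 + 1))) :=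
        h3.trans (h.trans (mul_le_mul_of_nonneg_left h2 hC2.le))
      rw [div_le_iff₀ hP0] at h5
      refine h5.trans ?_
      have h6 : C2 * ((q : ℝ) * (2 * T / (P : ℝ) ^ (m + 1 + 1))) * P =
          2 * C2 * q * (T / (P : ℝ) ^ (m + 1)) := by
        field_simp
        ring
      rw [h6, hD]
      have h7 : T / (P : ℝ) ^ (m + 1) ≤ 1 := by
        rw [div_le_one (by positivity)]; exact hT2
      have h8 : 0 ≤ T / (P : ℝ) ^ (m + 1) := by positivity
      have h9 : (0 : ℝ) ≤ 2 * C2 * q := by positivity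
      nlinarith [mul_le_mul_of_nonneg_left h7 h9]
  -- counting
  have hfib : ∀ a ∈ X.image (fun x => x 0),
      ((#{x ∈ X | x 0 = a} : ℕ) : ℝ) ≤ (2 * D + 1) ^ (q + 1) := by
    intro a ha
    obtain ⟨y, hy, hya⟩ := mem_image.1 ha
    have hmaps : ∀ i : Fin (q + 1),
        ((#((({x ∈ X | x 0 = a} : Finset (Fin (q + 1) → ℕ))).image (fun x => x i)) : ℕ) : ℝ) ≤
          2 * D + 1 := by
      intro i
      apply card_le_of_close _ _ (by positivity)
      intro b hb b' hb'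
      obtain ⟨x, hx, rfl⟩ := mem_image.1 hb
      obtain ⟨x', hx', rfl⟩ := mem_image.1 hb'
      rw [mem_filter] at hx hx'
      have := hclose2 x hx.1 x' hx'.1 (by rw [hx.2, hx'.2]) i
      linarith
    have hsub : ({x ∈ X | x 0 = a} : Finset (Fin (q + 1) → ℕ)) ⊆
        Fintype.piFinset (fun i => (({x ∈ X | x 0 = a} : Finset (Fin (q + 1) → ℕ))).image
          (fun x => x i)) := by
      intro x hx
      rw [Fintype.mem_piFinset]
      intro i
      exact mem_image_of_mem _ hx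
    calc ((#{x ∈ X | x 0 = a} : ℕ) : ℝ) ≤ ((#(Fintype.piFinset (fun i =>
          (({x ∈ X | x 0 = a} : Finset (Fin (q + 1) → ℕ))).image (fun x => x i))) : ℕ) : ℝ) := by
          exact_mod_cast card_le_card hsub
      _ = ∏ i : Fin (q + 1), ((#((({x ∈ X | x 0 = a} :
            Finset (Fin (q + 1) → ℕ))).image (fun x => x i)) : ℕ) : ℝ) := by
          rw [Fintype.card_piFinset]; push_cast; rfl
      _ ≤ ∏ _i : Fin (q + 1), (2 * D + 1) :=
          prod_le_prod (fun _ _ => by positivity) fun i _ => hmaps i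
      _ = (2 * D + 1) ^ (q + 1) := by simp
  have himg : ((#(X.image (fun x => x 0)) : ℕ) : ℝ) ≤ K * T / (P : ℝ) ^ m + 1 := by
    apply card_le_of_close _ _ (by positivity)
    intro b hb b' hb'
    obtain ⟨x, hx, rfl⟩ := mem_image.1 hb
    obtain ⟨x', hx', rfl⟩ := mem_image.1 hb'
    exact hclose x hx x' hx' 0
  have hT3 : 1 ≤ T / (P : ℝ) ^ m := by rw [le_div_iff₀ (by positivity)]; linarith
  have hcard : (#X : ℝ) = ∑ a ∈ X.image (fun x => x 0), ((#{x ∈ X | x 0 = a} : ℕ) : ℝ) := by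
    rw [card_eq_sum_card_image (fun x => x 0) X]
    push_cast
    rfl
  calc (#X : ℝ) = ∑ a ∈ X.image (fun x => x 0), ((#{x ∈ X | x 0 = a} : ℕ) : ℝ) := hcard
    _ ≤ ∑ _a ∈ X.image (fun x => x 0), (2 * D + 1) ^ (q + 1) := sum_le_sum hfib
    _ = ((#(X.image (fun x => x 0)) : ℕ) : ℝ) * (2 * D + 1) ^ (q + 1) := by
        rw [sum_const, nsmul_eq_mul]
    _ ≤ (K * T / (P : ℝ) ^ m + 1) * (2 * D + 1) ^ (q + 1) :=
        mul_le_mul_of_nonneg_right himg (by positivity)
    _ ≤ ((K + 1) * (T / (P : ℝ) ^ m)) * (2 * D + 1) ^ (q + 1) := by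
        refine mul_le_mul_of_nonneg_right ?_ (by positivity)
        have : K * T / (P : ℝ) ^ m = K * (T / (P : ℝ) ^ m) := by ring
        rw [this]
        linarith
    _ = (K + 1) * (2 * D + 1) ^ (q + 1) * T / (P : ℝ) ^ m := by ring

end Pool.Agent.L7h37.WA
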