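import Mathlib
import Pool.Agent.L7h67.WA.Stm
import Pool.Agent.L7h37.WA.Loc
import Pool.Agent.L7h37.WA.Slice
import Pool.Agent.L7h22.WA.Pol

/-!
# Project WA: MVB, analysis of one polynomial
-/

set_option autoImplicit false

namespace Pool.Agent.L7h37.WA

open Finset MeasureTheory Polynomial Filter
open Pool.Agent.L7h67.WA

/-- mean value theorem -/
theorem mvt (f f' : ℝ → ℝ) (h : ∀ x, HasDerivAt f (f' x) x) (a b : ℝ) :
    ∃ ξ, min a b ≤ ξ ∧ ξ ≤ max a b ∧ f b - f a = f' ξ * (b - a) := by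
  rcases lt_trichotomy a b with hab | hab | hab
  · obtain ⟨c, hc, h2⟩ := exists_hasDerivAt_eq_slope f f' hab
      (fun x _ => (h x).continuousAt.continuousWithinAt) (fun x _ => h x)
    refine ⟨c, ?_, ?_, ?_⟩
    · rw [min_eq_left hab.le]; exact hc.1.le
    · rw [max_eq_right hab.le]; exact hc.2.le
    · have : b - a ≠ 0 := sub_ne_zero.2 hab.ne'
      rw [h2]; field_simp
  · subst hab
    exact ⟨a, by simp, by simp, by simp⟩
  · obtain ⟨c, hc, h2⟩ := exists_hasDerivAt_eq_slope f f' hab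
      (fun x _ => (h x).continuousAt.continuousWithinAt) (fun x _ => h x)
    refine ⟨c, ?_, ?_, ?_⟩
    · rw [min_eq_right hab.le]; exact hc.1.le
    · rw [max_eq_left hab.le]; exact hc.2.le
    · have : a - b ≠ 0 := sub_ne_zero.2 hab.ne'
      rw [h2]
      field_simp
      ring

/-- second order mean value theorem for a polynomial -/
theorem mvt2 (g : ℝ[X]) (x y s s' : ℝ) : ∃ ξ : ℝ, min x y - max s s' ≤ ξ ∧
    ξ ≤ max x y - min s s' ∧
    (g.eval (x - s) - g.eval (y - s)) - (g.eval (x - s') - g.eval (y - s')) =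
      (derivative (derivative g)).eval ξ * ((x - y) * (s' - s)) := by
  have hd : ∀ (G : ℝ[X]) (c s : ℝ), HasDerivAt (fun s => G.eval (c - s))
      (-(derivative G).eval (c - s)) s := by
    intro G c s
    have h1 := (G.hasDerivAt (c - s)).comp s ((hasDerivAt_id s).const_sub c)
    simpa [Function.comp_def] using h1
  obtain ⟨σ, h1, h2, h3⟩ := mvt (fun s => g.eval (x - s) - g.eval (y - s))
    (fun s => -(derivative g).eval (x - s) - -(derivative g).eval (y - s))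
    (fun s => (hd g x s).sub (hd g y s)) s' s
  obtain ⟨ξ, h4, h5, h6⟩ := mvt (fun u => (derivative g).eval u)
    (fun u => (derivative (derivative g)).eval u) (fun u => (derivative g).hasDerivAt u)
    (y - σ) (x - σ)
  refine ⟨ξ, ?_, ?_, ?_⟩
  · have h7 : min (y - σ) (x - σ) = min x y - σ := by
      rw [min_sub_sub_right, min_comm]
    rw [h7] at h4
    rw [max_comm] at h2
    linarith
  · have h7 : max (y - σ) (x - σ) = max x y - σ := by
      rw [max_sub_sub_right, max_comm]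
    rw [h7] at h5
    rw [min_comm] at h1
    linarith
  · rw [h3]
    have h8 : -(derivative g).eval (x - σ) - -(derivative g).eval (y - σ) =
        -((derivative g).eval (x - σ) - (derivative g).eval (y - σ)) := by ring
    rw [h8, h6]
    ring

theorem one_poly (k : ℕ) (hk : 2 ≤ k) (g : ℝ[X]) (hg : g.natDegree = k)
    (hl : 0 < g.leadingCoeff) (R : ℝ) (hR : 0 ≤ R) :
    ∃ c C : ℝ, 0 < c ∧ 0 < C ∧ ∃ P0 : ℕ, ∀ P : ℕ, P0 ≤ P →
    (∀ x y s s' : ℝ, (P : ℝ) ≤ x → x ≤ 4 * P → (P : ℝ) ≤ y → y ≤ 4 * P → |s| ≤ R → |s'| ≤ R →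
      c * (|x - y| * |s - s'|) * (P : ℝ) ^ (k - 2) ≤
        |(g.eval (x - s) - g.eval (y - s)) - (g.eval (x - s') - g.eval (y - s'))| ∧
      |(g.eval (x - s) - g.eval (y - s)) - (g.eval (x - s') - g.eval (y - s'))| ≤
        C * (|x - y| * |s - s'|) * (P : ℝ) ^ (k - 2)) ∧
    (∀ x y : ℝ, (P : ℝ) ≤ x → (P : ℝ) ≤ y →
      c * |x - y| * (P : ℝ) ^ (k - 1) ≤ |g.eval x - g.eval y|) := by
  obtain ⟨c1, c2, U, hc1, hc2, hU, h1⟩ := Pool.Agent.L7h22.WA.growth k g (by omega) hg hl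
  have hgd : (derivative g).natDegree = k - 1 := by
    rw [natDegree_derivative, hg]
  have hld : 0 < (derivative g).leadingCoeff := by
    rw [leadingCoeff, hgd, coeff_derivative]
    have : g.coeff (k - 1 + 1) = g.leadingCoeff := by
      rw [Nat.sub_add_cancel (by omega), ← hg]; rfl
    rw [this]
    positivity
  obtain ⟨d1, d2, U', hd1, hd2, hU', h2⟩ := Pool.Agent.L7h22.WA.growth (k - 1) (derivative g)
    (by omega) hgd hld
  obtain ⟨P0, hP0⟩ := exists_nat_ge (2 * (R + U + U' + 1))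
  refine ⟨min (c1) (d1 / 2 ^ (k - 2)), d2 * 5 ^ (k - 2), lt_min hc1 (by positivity),
    by positivity, P0, ?_⟩
  intro P hP
  have hP' : 2 * (R + U + U' + 1) ≤ (P : ℝ) := hP0.trans (by exact_mod_cast hP)
  constructor
  · intro x y s s' hx1 hx2 hy1 hy2 hs hs'
    obtain ⟨ξ, hξ1, hξ2, hξ⟩ := mvt2 g x y s s'
    rw [abs_le] at hs hs'
    have h3 : (P : ℝ) ≤ min x y := le_min hx1 hy1
    have h4 : max s s' ≤ R := max_le hs.2 hs'.2
    have h5 : max x y ≤ 4 * (P : ℝ) := max_le hx2 hy2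
    have h6 : -R ≤ min s s' := le_min hs.1 hs'.1
    have hlow : (P : ℝ) / 2 ≤ ξ := by linarith
    have hup : ξ ≤ 5 * (P : ℝ) := by linarith
    obtain ⟨ha, hb, _⟩ := h2 ξ (by linarith)
    have hk2 : k - 1 - 1 = k - 2 := by omega
    rw [hk2] at ha hb
    have hP0' : (0 : ℝ) ≤ P := by positivity
    have hξ0 : 0 ≤ ξ := by linarith
    have e1 : d1 / 2 ^ (k - 2) * (P : ℝ) ^ (k - 2) ≤ (derivative (derivative g)).eval ξ := by
      refine le_trans ?_ ha
      rw [div_mul_eq_mul_div, mul_div_assoc, ← div_pow]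
      gcongr
    have e2 : (derivative (derivative g)).eval ξ ≤ d2 * 5 ^ (k - 2) * (P : ℝ) ^ (k - 2) := by
      refine hb.trans ?_
      rw [mul_assoc, ← mul_pow]
      gcongr
    have e0 : 0 ≤ (derivative (derivative g)).eval ξ := le_trans (by positivity) e1
    rw [hξ, abs_mul, abs_mul, abs_of_nonneg e0, abs_sub_comm s' s]
    have e3 : 0 ≤ |x - y| * |s - s'| := by positivity
    constructor
    · calc min c1 (d1 / 2 ^ (k - 2)) * (|x - y| * |s - s'|) * (P : ℝ) ^ (k - 2)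
          = (min c1 (d1 / 2 ^ (k - 2)) * (P : ℝ) ^ (k - 2)) * (|x - y| * |s - s'|) := by ring
        _ ≤ (d1 / 2 ^ (k - 2) * (P : ℝ) ^ (k - 2)) * (|x - y| * |s - s'|) := by
            gcongr
            exact min_le_right _ _
        _ ≤ _ := mul_le_mul_of_nonneg_right e1 e3
    · calc _ ≤ (d2 * 5 ^ (k - 2) * (P : ℝ) ^ (k - 2)) * (|x - y| * |s - s'|) :=
            mul_le_mul_of_nonneg_right e2 e3
        _ = _ := by ring
  · intro x y hx hy
    obtain ⟨ξ, hξ1, hξ2, hξ⟩ := mvt (fun u => g.eval u) (fun u => (derivative g).eval u)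
      (fun u => g.hasDerivAt u) y x
    have h3 : (P : ℝ) ≤ min y x := le_min hy hx
    obtain ⟨ha, _, _⟩ := h1 ξ (by linarith)
    have hP0' : (0 : ℝ) ≤ P := by positivity
    have e1 : c1 * (P : ℝ) ^ (k - 1) ≤ (derivative g).eval ξ := by
      refine le_trans ?_ ha
      gcongr
      linarith
    have e0 : 0 ≤ (derivative g).eval ξ := le_trans (by positivity) e1
    rw [hξ, abs_mul, abs_of_nonneg e0]
    calc min c1 (d1 / 2 ^ (k - 2)) * |x - y| * (P : ℝ) ^ (k - 1)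
        = (min c1 (d1 / 2 ^ (k - 2)) * (P : ℝ) ^ (k - 1)) * |x - y| := by ring
      _ ≤ (c1 * (P : ℝ) ^ (k - 1)) * |x - y| := by
          gcongr
          exact min_le_left _ _
      _ ≤ _ := mul_le_mul_of_nonneg_right e1 (abs_nonneg _)

/-- the same for a finite family, with common constants -/
theorem fam_poly (k : ℕ) (hk : 2 ≤ k) (g : Fin k → ℝ[X])
    (hg : ∀ i, (g i).natDegree = k ∧ 0 < (g i).leadingCoeff) (R : ℝ) (hR : 0 ≤ R) :
    ∃ c C : ℝ, 0 < c ∧ 0 < C ∧ ∃ P0 : ℕ, ∀ P : ℕ, P0 ≤ P → ∀ i,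
    (∀ x y s s' : ℝ, (P : ℝ) ≤ x → x ≤ 4 * P → (P : ℝ) ≤ y → y ≤ 4 * P → |s| ≤ R → |s'| ≤ R →
      c * (|x - y| * |s - s'|) * (P : ℝ) ^ (k - 2) ≤
        |((g i).eval (x - s) - (g i).eval (y - s)) -
          ((g i).eval (x - s') - (g i).eval (y - s'))| ∧
      |((g i).eval (x - s) - (g i).eval (y - s)) -
          ((g i).eval (x - s') - (g i).eval (y - s'))| ≤
        C * (|x - y| * |s - s'|) * (P : ℝ) ^ (k - 2)) ∧
    (∀ x y : ℝ, (P : ℝ) ≤ x → (P : ℝ) ≤ y →
      c * |x - y| * (P : ℝ) ^ (k - 1) ≤ |(g i).eval x - (g i).eval y|) := by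
  choose c C hc hC P0 h using fun i => one_poly k hk (g i) (hg i).1 (hg i).2 R hR
  obtain ⟨i0, _, hi0⟩ := exists_min_image (univ : Finset (Fin k)) c ⟨⟨0, by omega⟩, mem_univ _⟩
  have hCs : ∀ i, C i ≤ ∑ j, C j := fun i =>
    single_le_sum (f := C) (fun j _ => (hC j).le) (mem_univ i)
  have hPs : ∀ i, P0 i ≤ ∑ j, P0 j := fun i =>
    single_le_sum (f := P0) (fun j _ => Nat.zero_le _) (mem_univ i)
  refine ⟨c i0, ∑ j, C j, hc i0, lt_of_lt_of_le (hC ⟨0, by omega⟩) (hCs _), ∑ j, P0 j, ?_⟩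
  intro P hP i
  obtain ⟨h1, h2⟩ := h i P ((hPs i).trans hP)
  constructor
  · intro x y s s' hx1 hx2 hy1 hy2 hs hs'
    obtain ⟨h3, h4⟩ := h1 x y s s' hx1 hx2 hy1 hy2 hs hs'
    constructor
    · refine le_trans ?_ h3
      gcongr
      exact hi0 i (mem_univ _)
    · refine h4.trans ?_
      gcongr
      exact hCs i
  · intro x y hx hy
    refine le_trans ?_ (h2 x y hx hy)
    gcongr
    exact hi0 i (mem_univ _)

end Pool.Agent.L7h37.WA
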