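import Mathlib
import Pool.Agent.L7h67.WA.Stm
import Pool.Agent.L7h37.WA.MvbA

/-!
# Project WA: MVB, the counting and the sum of the measures
-/

set_option autoImplicit false

namespace Pool.Agent.L7h37.WA

open Finset MeasureTheory Polynomial Filter
open Pool.Agent.L7h67.WA

/-- the largest difference of the coordinates is `D`, attained at `i0` -/
def AD {k : ℕ} (i0 : Fin k) (D : ℕ) (p : (Fin k → ℕ) × (Fin k → ℕ)) : Prop :=
  (p.1 i0 = p.2 i0 + D ∨ p.2 i0 = p.1 i0 + D) ∧ ∀ j, p.1 j ≤ p.2 j + D ∧ p.2 j ≤ p.1 j + D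

theorem prod_le_two {k : ℕ} (f : Fin k → ℕ) (i0 i1 : Fin k) (h : i0 ≠ i1) (B : ℕ)
    (h1 : f i1 ≤ 1) (h0 : f i0 ≤ 2) (hB : ∀ j, f j ≤ B) : ∏ j, f j ≤ 2 * B ^ (k - 2) := by
  rw [← mul_prod_erase univ f (mem_univ i1)]
  rw [← mul_prod_erase (univ.erase i1) f (mem_erase.2 ⟨h, mem_univ i0⟩)]
  have hc : #((univ.erase i1).erase i0) = k - 2 := by
    rw [card_erase_of_mem (mem_erase.2 ⟨h, mem_univ i0⟩), card_erase_of_mem (mem_univ i1),
      card_univ, Fintype.card_fin]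
    omega
  have h2 : ∏ j ∈ (univ.erase i1).erase i0, f j ≤ B ^ (k - 2) := by
    rw [← hc]
    exact prod_le_pow_card _ _ _ fun j _ => hB j
  calc f i1 * (f i0 * ∏ j ∈ (univ.erase i1).erase i0, f j)
      ≤ 1 * (2 * B ^ (k - 2)) := Nat.mul_le_mul h1 (Nat.mul_le_mul h0 h2)
    _ = 2 * B ^ (k - 2) := one_mul _

theorem mem_bx_one {k : ℕ} {P : ℕ} {x : Fin k → ℕ} :
    x ∈ bx (fun _ : Fin k => 1) P ↔ ∀ i, P < x i ∧ x i ≤ 4 * P := by
  unfold bx
  simp only [Fintype.mem_piFinset, mem_Ioc, one_mul]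

theorem card_bx_one (k P : ℕ) : #(bx (fun _ : Fin k => 1) P) = (3 * P) ^ k := by
  unfold bx
  rw [Fintype.card_piFinset]
  simp only [one_mul, Nat.card_Ioc, prod_const, card_univ, Fintype.card_fin]
  congr 1
  omega

theorem count_pairs {k : ℕ} (hk : 2 ≤ k) (g : Fin k → ℝ[X]) (c : ℝ) (hc : 0 < c) (P : ℕ)
    (hP : 1 ≤ P)
    (hgrow : ∀ i, ∀ x y : ℝ, (P : ℝ) ≤ x → (P : ℝ) ≤ y →
      c * |x - y| * (P : ℝ) ^ (k - 1) ≤ |(g i).eval x - (g i).eval y|)
    (M B : ℝ) (hB : 0 ≤ B) (hMB : 2 * M ≤ B * (c * (P : ℝ) ^ (k - 1))) (i0 : Fin k) (D : ℕ)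
    (Y : Finset ((Fin k → ℕ) × (Fin k → ℕ)))
    (hY : ∀ p ∈ Y, p.1 ∈ bx (fun _ : Fin k => 1) P ∧ p.2 ∈ bx (fun _ : Fin k => 1) P ∧
      AD i0 D p ∧ |∑ i, ((g i).eval (p.1 i : ℝ) - (g i).eval (p.2 i : ℝ))| ≤ M) :
    (#Y : ℝ) ≤ (B + 1) * ((3 * P) ^ k * (2 * (2 * D + 1) ^ (k - 2)) : ℕ) := by
  classical
  obtain ⟨i1, hi1⟩ : ∃ i1 : Fin k, i0 ≠ i1 := by
    have : Nontrivial (Fin k) := Fin.nontrivial_iff_two_le.2 hk
    obtain ⟨i1, h⟩ := exists_ne i0
    exact ⟨i1, h.symm⟩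
  set π : (Fin k → ℕ) × (Fin k → ℕ) → (Σ _ : (Fin k → ℕ), (Fin k → ℕ)) :=
    fun p => ⟨p.2, Function.update p.1 i1 0⟩ with hπ
  have himg : #(Y.image π) ≤ (3 * P) ^ k * (2 * (2 * D + 1) ^ (k - 2)) := by
    set Z : Finset (Σ _ : (Fin k → ℕ), (Fin k → ℕ)) :=
      (bx (fun _ : Fin k => 1) P).sigma fun y => Fintype.piFinset fun j =>
        if j = i1 then ({0} : Finset ℕ) else if j = i0 then {y j + D, y j - D} else
          Icc (y j - D) (y j + D) with hZ
    have hsub : Y.image π ⊆ Z := by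
      intro q hq
      obtain ⟨p, hp, rfl⟩ := mem_image.1 hq
      obtain ⟨h1, h2, h3, h4⟩ := hY p hp
      rw [hZ, mem_sigma]
      refine ⟨h2, ?_⟩
      rw [Fintype.mem_piFinset]
      intro j
      simp only [hπ]
      by_cases hj1 : j = i1
      · subst hj1
        simp
      · rw [if_neg hj1, Function.update_of_ne hj1]
        by_cases hj0 : j = i0
        · rw [if_pos hj0, hj0, mem_insert, mem_singleton]
          rcases h3.1 with h | h
          · left; exact h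
          · right; omega
        · rw [if_neg hj0, mem_Icc]
          have := h3.2 j
          omega
    refine (card_le_card hsub).trans ?_
    rw [hZ, card_sigma]
    calc ∑ y ∈ bx (fun _ : Fin k => 1) P, #(Fintype.piFinset fun j =>
        if j = i1 then ({0} : Finset ℕ) else if j = i0 then {y j + D, y j - D} else
          Icc (y j - D) (y j + D))
        ≤ ∑ y ∈ bx (fun _ : Fin k => 1) P, (2 * (2 * D + 1) ^ (k - 2)) := by
          refine sum_le_sum fun y _ => ?_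
          rw [Fintype.card_piFinset]
          apply prod_le_two _ i0 i1 hi1
          · simp
          · rw [if_neg hi1, if_pos rfl]
            exact card_le_two
          · intro j
            split_ifs
            · simp
            · rcases Nat.eq_zero_or_pos D with hD | hD
              · subst hD; simp
              · refine card_le_two.trans ?_
                omega
            · rw [Nat.card_Icc]; omega
      _ = (3 * P) ^ k * (2 * (2 * D + 1) ^ (k - 2)) := by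
          rw [sum_const, card_bx_one, smul_eq_mul]
  have hfib : ∀ q ∈ Y.image π, ((#{p ∈ Y | π p = q} : ℕ) : ℝ) ≤ B + 1 := by
    intro q hq
    set W : Finset ((Fin k → ℕ) × (Fin k → ℕ)) := {p ∈ Y | π p = q} with hW
    have hinj : Set.InjOn (fun p : (Fin k → ℕ) × (Fin k → ℕ) => p.1 i1) W := by
      intro p hp p' hp' h
      rw [mem_coe, hW, mem_filter] at hp hp'
      have hpp : π p = π p' := by rw [hp.2, hp'.2]
      simp only [hπ, Sigma.mk.injEq, heq_eq_eq] at hpp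
      refine Prod.ext ?_ hpp.1
      funext j
      by_cases hj : j = i1
      · subst hj; exact h
      · have := congrFun hpp.2 j
        rwa [Function.update_of_ne hj, Function.update_of_ne hj] at this
    rw [← card_image_of_injOn hinj]
    apply card_le_of_close _ _ hB
    intro a ha b hb
    obtain ⟨p, hp, rfl⟩ := mem_image.1 ha
    obtain ⟨p', hp', rfl⟩ := mem_image.1 hb
    rw [hW, mem_filter] at hp hp'
    have hpp : π p = π p' := by rw [hp.2, hp'.2]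
    simp only [hπ, Sigma.mk.injEq, heq_eq_eq] at hpp
    obtain ⟨h1, h2, h3, h4⟩ := hY p hp.1
    obtain ⟨h1', h2', h3', h4'⟩ := hY p' hp'.1
    have hx : (P : ℝ) ≤ (p.1 i1 : ℝ) := by exact_mod_cast (mem_bx_one.1 h1 i1).1.le
    have hx' : (P : ℝ) ≤ (p'.1 i1 : ℝ) := by exact_mod_cast (mem_bx_one.1 h1' i1).1.le
    have hg := hgrow i1 _ _ hx hx'
    have hdiff : (g i1).eval (p.1 i1 : ℝ) - (g i1).eval (p'.1 i1 : ℝ) =
        (∑ i, ((g i).eval (p.1 i : ℝ) - (g i).eval (p.2 i : ℝ))) -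
          ∑ i, ((g i).eval (p'.1 i : ℝ) - (g i).eval (p'.2 i : ℝ)) := by
      rw [← sum_sub_distrib]
      rw [sum_eq_single i1]
      · rw [hpp.1]; ring
      · intro j _ hj
        have := congrFun hpp.2 j
        rw [Function.update_of_ne hj, Function.update_of_ne hj] at this
        rw [this, hpp.1]; ring
      · intro h; exact absurd (mem_univ _) h
    have h5 : |(g i1).eval (p.1 i1 : ℝ) - (g i1).eval (p'.1 i1 : ℝ)| ≤ 2 * M := by
      rw [hdiff]
      refine (abs_sub _ _).trans ?_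
      linarith
    have hP0 : (0 : ℝ) < (P : ℝ) ^ (k - 1) := by positivity
    have h6 : c * |(p.1 i1 : ℝ) - p'.1 i1| * (P : ℝ) ^ (k - 1) ≤
        B * (c * (P : ℝ) ^ (k - 1)) := hg.trans (h5.trans hMB)
    have h7 : 0 < c * (P : ℝ) ^ (k - 1) := mul_pos hc hP0
    have h8 : |(p.1 i1 : ℝ) - p'.1 i1| * (c * (P : ℝ) ^ (k - 1)) ≤
        B * (c * (P : ℝ) ^ (k - 1)) := by linarith
    exact le_of_mul_le_mul_right h8 h7
  have hcard : (#Y : ℝ) = ∑ q ∈ Y.image π, ((#{p ∈ Y | π p = q} : ℕ) : ℝ) := by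
    rw [card_eq_sum_card_image π Y]
    push_cast
    rfl
  calc (#Y : ℝ) = ∑ q ∈ Y.image π, ((#{p ∈ Y | π p = q} : ℕ) : ℝ) := hcard
    _ ≤ ∑ _q ∈ Y.image π, (B + 1) := sum_le_sum hfib
    _ = ((#(Y.image π) : ℕ) : ℝ) * (B + 1) := by rw [sum_const, nsmul_eq_mul]
    _ ≤ (((3 * P) ^ k * (2 * (2 * D + 1) ^ (k - 2)) : ℕ) : ℝ) * (B + 1) := by
        refine mul_le_mul_of_nonneg_right ?_ (by linarith)
        exact_mod_cast himg
    _ = _ := mul_comm _ _

variable {κ : Type} [Fintype κ] [DecidableEq κ]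

/-- the difference of the two shifted forms -/
noncomputable def Sg {k : ℕ} (g : Fin k → ℝ[X]) (e : Fin k → κ)
    (p : (Fin k → ℕ) × (Fin k → ℕ)) (θ : κ → ℝ) : ℝ :=
  ∑ i, ((g i).eval ((p.1 i : ℝ) - θ (e i)) - (g i).eval ((p.2 i : ℝ) - θ (e i)))

/-- the shifts for which the pair is a near solution -/
def EE {k : ℕ} (g : Fin k → ℝ[X]) (e : Fin k → κ) (R L : ℝ)
    (p : (Fin k → ℕ) × (Fin k → ℕ)) : Set (κ → ℝ) :=
  {θ | (∀ i, |θ i| ≤ R) ∧ |Sg g e p θ| ≤ L}

theorem measurable_EE {k : ℕ} (g : Fin k → ℝ[X]) (e : Fin k → κ) (R L : ℝ)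
    (p : (Fin k → ℕ) × (Fin k → ℕ)) : MeasurableSet (EE g e R L p) := by
  apply IsClosed.measurableSet
  have h1 : IsClosed {θ : κ → ℝ | ∀ i, |θ i| ≤ R} := by
    have : {θ : κ → ℝ | ∀ i, |θ i| ≤ R} = ⋂ i, {θ : κ → ℝ | |θ i| ≤ R} := by
      ext θ; simp
    rw [this]
    exact isClosed_iInter fun i => isClosed_le (by fun_prop) continuous_const
  have h2 : IsClosed {θ : κ → ℝ | |Sg g e p θ| ≤ L} := by
    refine isClosed_le ?_ continuous_const
    unfold Sg
    fun_prop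
  exact h1.inter h2

theorem volume_EE {k : ℕ} (hk : 2 ≤ k) (g : Fin k → ℝ[X]) (e : Fin k → κ)
    (he : Function.Injective e) (R L c : ℝ) (hR : 0 ≤ R) (hL : 0 ≤ L) (hc : 0 < c) (P : ℕ)
    (hP : 1 ≤ P)
    (hg : ∀ i, ∀ x y s s' : ℝ, (P : ℝ) ≤ x → x ≤ 4 * P → (P : ℝ) ≤ y → y ≤ 4 * P →
      |s| ≤ R → |s'| ≤ R → c * (|x - y| * |s - s'|) * (P : ℝ) ^ (k - 2) ≤
        |((g i).eval (x - s) - (g i).eval (y - s)) -
          ((g i).eval (x - s') - (g i).eval (y - s'))|)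
    (p : (Fin k → ℕ) × (Fin k → ℕ)) (h1 : p.1 ∈ bx (fun _ : Fin k => 1) P)
    (h2 : p.2 ∈ bx (fun _ : Fin k => 1) P) (i0 : Fin k) (D : ℕ) (hD : 1 ≤ D) (hAD : AD i0 D p) :
    volume (EE g e R L p) ≤ ENNReal.ofReal ((2 * R) ^ (Fintype.card κ - 1) *
      (2 * L / (c * D * (P : ℝ) ^ (k - 2)))) := by
  have hP0 : (0 : ℝ) < (P : ℝ) ^ (k - 2) := by positivity
  have hD0 : (0 : ℝ) < D := by exact_mod_cast hD
  apply s_SLICE κ (e i0) R _ (EE g e R L p) hR (by positivity) (measurable_EE g e R L p)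
  · intro θ hθ; exact hθ.1
  · intro θ hθ s hs
    have hx := mem_bx_one.1 h1 i0
    have hy := mem_bx_one.1 h2 i0
    have hs1 : |s| ≤ R := by simpa using hs.1 (e i0)
    have h3 := hg i0 (p.1 i0) (p.2 i0) s (θ (e i0)) (by exact_mod_cast hx.1.le)
      (by exact_mod_cast hx.2) (by exact_mod_cast hy.1.le) (by exact_mod_cast hy.2) hs1
      (hθ.1 (e i0))
    have hdiff : ((g i0).eval ((p.1 i0 : ℝ) - s) - (g i0).eval ((p.2 i0 : ℝ) - s)) -
          ((g i0).eval ((p.1 i0 : ℝ) - θ (e i0)) - (g i0).eval ((p.2 i0 : ℝ) - θ (e i0))) =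
        Sg g e p (Function.update θ (e i0) s) - Sg g e p θ := by
      unfold Sg
      rw [← sum_sub_distrib, sum_eq_single i0]
      · simp
      · intro j _ hj
        rw [Function.update_of_ne (fun h => hj (he h))]
        ring
      · intro h; exact absurd (mem_univ _) h
    rw [hdiff] at h3
    have h4 : |Sg g e p (Function.update θ (e i0) s) - Sg g e p θ| ≤ 2 * L := by
      refine (abs_sub _ _).trans ?_
      linarith [hs.2, hθ.2]
    have h5 : |(p.1 i0 : ℝ) - p.2 i0| = D := by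
      rcases hAD.1 with h | h
      · rw [h]; push_cast; rw [add_sub_cancel_left, abs_of_pos hD0]
      · rw [h]; push_cast; rw [sub_add_cancel_left, abs_neg, abs_of_pos hD0]
    rw [h5] at h3
    rw [le_div_iff₀ (by positivity)]
    calc |s - θ (e i0)| * (c * D * (P : ℝ) ^ (k - 2))
        = c * (D * |s - θ (e i0)|) * (P : ℝ) ^ (k - 2) := by ring
      _ ≤ 2 * L := h3.trans h4

theorem base_EE {k : ℕ} (g : Fin k → ℝ[X]) (e : Fin k → κ)
    (R L C : ℝ) (hR : 0 ≤ R) (hC : 0 ≤ C) (P : ℕ)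
    (hg : ∀ i, ∀ x y s s' : ℝ, (P : ℝ) ≤ x → x ≤ 4 * P → (P : ℝ) ≤ y → y ≤ 4 * P →
      |s| ≤ R → |s'| ≤ R → |((g i).eval (x - s) - (g i).eval (y - s)) -
          ((g i).eval (x - s') - (g i).eval (y - s'))| ≤
        C * (|x - y| * |s - s'|) * (P : ℝ) ^ (k - 2))
    (p : (Fin k → ℕ) × (Fin k → ℕ)) (h1 : p.1 ∈ bx (fun _ : Fin k => 1) P)
    (h2 : p.2 ∈ bx (fun _ : Fin k => 1) P) (i0 : Fin k) (D : ℕ) (hAD : AD i0 D p)
    (hne : (EE g e R L p).Nonempty) :
    |∑ i, ((g i).eval (p.1 i : ℝ) - (g i).eval (p.2 i : ℝ))| ≤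
      L + k * (C * (D * R) * (P : ℝ) ^ (k - 2)) := by
  obtain ⟨θ, hθ1, hθ2⟩ := hne
  have hsplit : ∑ i, ((g i).eval (p.1 i : ℝ) - (g i).eval (p.2 i : ℝ)) =
      Sg g e p θ + ∑ i, (((g i).eval ((p.1 i : ℝ) - 0) - (g i).eval ((p.2 i : ℝ) - 0)) -
        ((g i).eval ((p.1 i : ℝ) - θ (e i)) - (g i).eval ((p.2 i : ℝ) - θ (e i)))) := by
    unfold Sg
    rw [← sum_add_distrib]
    refine sum_congr rfl fun i _ => ?_
    rw [sub_zero, sub_zero]
    ring
  rw [hsplit]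
  refine (abs_add_le _ _).trans (add_le_add hθ2 ?_)
  refine (abs_sum_le_sum_abs _ _).trans ?_
  calc ∑ i, |((g i).eval ((p.1 i : ℝ) - 0) - (g i).eval ((p.2 i : ℝ) - 0)) -
        ((g i).eval ((p.1 i : ℝ) - θ (e i)) - (g i).eval ((p.2 i : ℝ) - θ (e i)))|
      ≤ ∑ _i : Fin k, C * (D * R) * (P : ℝ) ^ (k - 2) := by
        refine sum_le_sum fun i _ => ?_
        have hx := mem_bx_one.1 h1 i
        have hy := mem_bx_one.1 h2 i
        refine (hg i (p.1 i) (p.2 i) 0 (θ (e i)) (by exact_mod_cast hx.1.le)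
          (by exact_mod_cast hx.2) (by exact_mod_cast hy.1.le) (by exact_mod_cast hy.2)
          (by simpa using hR) (hθ1 (e i))).trans ?_
        have h3 : |(p.1 i : ℝ) - p.2 i| ≤ D := by
          have := hAD.2 i
          have ha : (p.1 i : ℝ) ≤ p.2 i + D := by exact_mod_cast this.1
          have hb : (p.2 i : ℝ) ≤ p.1 i + D := by exact_mod_cast this.2
          rw [abs_le]
          constructor <;> linarith
        have h4 : |0 - θ (e i)| ≤ R := by rw [zero_sub, abs_neg]; exact hθ1 (e i)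
        gcongr
    _ = _ := by rw [sum_const, card_univ, Fintype.card_fin, nsmul_eq_mul]

end Pool.Agent.L7h37.WA
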