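import Mathlib
import Pool.Agent.L7h67.WA.Stm
import Pool.Agent.L7h37.WA.MvbB

/-!
# Project WA: MVB, the sum of the measures
-/

set_option autoImplicit false

namespace Pool.Agent.L7h37.WA

open Finset MeasureTheory Polynomial Filter
open Pool.Agent.L7h67.WA

open Classical in
/-- the non-diagonal pairs -/
noncomputable def QQ (k P : ℕ) : Finset ((Fin k → ℕ) × (Fin k → ℕ)) :=
  {p ∈ bx (fun _ : Fin k => 1) P ×ˢ bx (fun _ : Fin k => 1) P | p.1 ≠ p.2}

theorem exists_AD {k : ℕ} (hk : 2 ≤ k) {P : ℕ} {p : (Fin k → ℕ) × (Fin k → ℕ)}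
    (hp : p ∈ QQ k P) : ∃ q : Fin k × ℕ, q.2 ∈ Icc 1 (3 * P) ∧ AD q.1 q.2 p := by
  classical
  unfold QQ at hp
  rw [mem_filter, mem_product] at hp
  obtain ⟨⟨h1, h2⟩, h3⟩ := hp
  obtain ⟨i0, _, hi0⟩ := exists_max_image (univ : Finset (Fin k))
    (fun j => (p.1 j - p.2 j) + (p.2 j - p.1 j)) ⟨⟨0, by omega⟩, mem_univ _⟩
  refine ⟨(i0, (p.1 i0 - p.2 i0) + (p.2 i0 - p.1 i0)), ?_, ?_, ?_⟩
  · simp only
    rw [mem_Icc]
    constructor
    · by_contra h
      apply h3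
      funext j
      have := hi0 j (mem_univ _)
      omega
    · have hx := mem_bx_one.1 h1 i0
      have hy := mem_bx_one.1 h2 i0
      omega
  · simp only
    omega
  · intro j
    have := hi0 j (mem_univ _)
    simp only
    omega

theorem main_est {κ : Type} [Fintype κ] [DecidableEq κ] {k : ℕ} (hk : 2 ≤ k) (g : Fin k → ℝ[X])
    (hg : ∀ i, (g i).natDegree = k ∧ 0 < (g i).leadingCoeff) (e : Fin k → κ)
    (he : Function.Injective e) (R : ℝ) (hR : 1 ≤ R) :
    ∃ K : ℝ, 0 < K ∧ ∃ P0 : ℕ, ∀ P : ℕ, P0 ≤ P → ∀ L : ℝ, 1 ≤ L → L ≤ (P : ℝ) ^ (k - 1) →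
      ∑ p ∈ QQ k P, volume (EE g e R L p) ≤
        ENNReal.ofReal (K * ((P : ℝ) ^ k * L * (1 + Real.log (3 * P)))) := by
  classical
  obtain ⟨c, C, hc, hC, P1, hfam⟩ := fam_poly k hk g hg R (by linarith)
  set B : ℝ := 2 * (1 + 3 * k * C * R) / c with hB
  have hR0 : 0 ≤ R := by linarith
  have hB0 : 0 ≤ B := by positivity
  set n : ℕ := Fintype.card κ - 1 with hn
  set K0 : ℝ := (B + 1) * 3 ^ k * 2 * 9 ^ (k - 2) * ((2 * R) ^ n * (2 / c)) with hK0
  have hK0pos : 0 < K0 := by positivity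
  have hk0 : (0 : ℝ) < k := by
    have : 0 < k := by omega
    exact_mod_cast this
  refine ⟨k * K0, by positivity, max P1 1, ?_⟩
  intro P hP L hL1 hL2
  have hP1 : 1 ≤ P := (le_max_right _ _).trans hP
  have hPr : (1 : ℝ) ≤ P := by exact_mod_cast hP1
  have hf := hfam P ((le_max_left _ _).trans hP)
  have hne : Nonempty (Fin k × ℕ) := ⟨(⟨0, by omega⟩, 0)⟩
  choose! m hm1 hm2 using fun p (hp : p ∈ QQ k P) => exists_AD hk hp
  have hmaps : ∀ p ∈ QQ k P, m p ∈ (univ : Finset (Fin k)) ×ˢ Icc 1 (3 * P) := by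
    intro p hp
    rw [mem_product]
    exact ⟨mem_univ _, hm1 p hp⟩
  rw [← sum_fiberwise_of_maps_to hmaps]
  have hone : ∀ q ∈ (univ : Finset (Fin k)) ×ˢ Icc 1 (3 * P),
      ∑ p ∈ QQ k P with m p = q, volume (EE g e R L p) ≤
        ENNReal.ofReal (K0 * ((P : ℝ) ^ k * L) * ((q.2 : ℝ))⁻¹) := by
    rintro ⟨i0, D⟩ hq
    rw [mem_product, mem_Icc] at hq
    simp only at hq ⊢
    obtain ⟨_, hD1, hD2⟩ := hq
    have hD0 : (0 : ℝ) < D := by exact_mod_cast hD1
    have hD3 : (D : ℝ) ≤ 3 * P := by exact_mod_cast hD2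
    set v : ℝ := (2 * R) ^ n * (2 * L / (c * D * (P : ℝ) ^ (k - 2))) with hv
    have hv0 : 0 ≤ v := by positivity
    set Y : Finset ((Fin k → ℕ) × (Fin k → ℕ)) :=
      {p ∈ QQ k P | m p = (i0, D) ∧ (EE g e R L p).Nonempty} with hY
    have hYmem : ∀ p ∈ Y, p.1 ∈ bx (fun _ : Fin k => 1) P ∧ p.2 ∈ bx (fun _ : Fin k => 1) P ∧
        AD i0 D p ∧ (EE g e R L p).Nonempty := by
      intro p hp
      rw [hY, mem_filter] at hp
      obtain ⟨h1, h2, h3⟩ := hp
      have h4 := hm2 p h1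
      rw [h2] at h4
      unfold QQ at h1
      rw [mem_filter, mem_product] at h1
      exact ⟨h1.1.1, h1.1.2, h4, h3⟩
    have h1 : ∑ p ∈ QQ k P with m p = (i0, D), volume (EE g e R L p) =
        ∑ p ∈ Y, volume (EE g e R L p) := by
      symm
      apply sum_subset
      · intro p hp
        rw [hY, mem_filter] at hp
        rw [mem_filter]
        exact ⟨hp.1, hp.2.1⟩
      · intro p hp hp'
        rw [mem_filter] at hp
        rw [hY, mem_filter, not_and, not_and] at hp'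
        have := hp' hp.1 hp.2
        rw [Set.not_nonempty_iff_eq_empty] at this
        rw [this, measure_empty]
    have h2 : ∑ p ∈ Y, volume (EE g e R L p) ≤ ∑ _p ∈ Y, ENNReal.ofReal v := by
      refine sum_le_sum fun p hp => ?_
      obtain ⟨ha, hb, hc', hd⟩ := hYmem p hp
      exact volume_EE hk g e he R L c hR0 (by linarith) hc P hP1
        (fun i x y s s' h1 h2 h3 h4 h5 h6 => ((hf i).1 x y s s' h1 h2 h3 h4 h5 h6).1)
        p ha hb i0 D hD1 hc'
    have hcount : (#Y : ℝ) ≤ (B + 1) * ((3 * P) ^ k * (2 * (2 * D + 1) ^ (k - 2)) : ℕ) := by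
      refine count_pairs hk g c hc P hP1 (fun i => (hf i).2)
        (L + k * (C * (D * R) * (P : ℝ) ^ (k - 2))) B hB0 ?_ i0 D Y ?_
      · have e1 : (P : ℝ) ^ (k - 1) = P * (P : ℝ) ^ (k - 2) := by
          rw [← pow_succ']; congr 1; omega
        have e2 : k * (C * (D * R) * (P : ℝ) ^ (k - 2)) ≤
            3 * k * C * R * (P : ℝ) ^ (k - 1) := by
          rw [e1]
          have : k * (C * (D * R) * (P : ℝ) ^ (k - 2)) =
            (k * C * R * (P : ℝ) ^ (k - 2)) * D := by ring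
          rw [this]
          have h0 : 0 ≤ k * C * R * (P : ℝ) ^ (k - 2) := by positivity
          calc _ ≤ (k * C * R * (P : ℝ) ^ (k - 2)) * (3 * P) :=
                mul_le_mul_of_nonneg_left hD3 h0
            _ = _ := by ring
        have e3 : B * (c * (P : ℝ) ^ (k - 1)) = 2 * ((1 + 3 * k * C * R) * (P : ℝ) ^ (k - 1)) := by
          rw [hB]; field_simp
        rw [e3]
        linarith
      · intro p hp
        obtain ⟨ha, hb, hc', hd⟩ := hYmem p hp
        refine ⟨ha, hb, hc', ?_⟩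
        exact base_EE g e R L C hR0 hC.le P
          (fun i x y s s' h1 h2 h3 h4 h5 h6 => ((hf i).1 x y s s' h1 h2 h3 h4 h5 h6).2)
          p ha hb i0 D hc' hd
    rw [h1]
    refine h2.trans ?_
    rw [sum_const, nsmul_eq_mul, ← ENNReal.ofReal_natCast, ← ENNReal.ofReal_mul (by positivity)]
    apply ENNReal.ofReal_le_ofReal
    have h3 : ((((3 * P) ^ k * (2 * (2 * D + 1) ^ (k - 2)) : ℕ) : ℝ)) ≤
        3 ^ k * 2 * 9 ^ (k - 2) * ((P : ℝ) ^ k * (P : ℝ) ^ (k - 2)) := by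
      push_cast
      have h4 : (2 * (D : ℝ) + 1) ≤ 9 * P := by linarith
      have h5 : (2 * (D : ℝ) + 1) ^ (k - 2) ≤ 9 ^ (k - 2) * (P : ℝ) ^ (k - 2) := by
        rw [← mul_pow]
        exact pow_le_pow_left₀ (by positivity) h4 _
      calc (3 * (P : ℝ)) ^ k * (2 * (2 * (D : ℝ) + 1) ^ (k - 2))
          ≤ (3 * (P : ℝ)) ^ k * (2 * (9 ^ (k - 2) * (P : ℝ) ^ (k - 2))) := by gcongr
        _ = _ := by rw [mul_pow]; ring
    calc (#Y : ℝ) * v ≤ ((B + 1) * (3 ^ k * 2 * 9 ^ (k - 2) *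
          ((P : ℝ) ^ k * (P : ℝ) ^ (k - 2)))) * v := by
          refine mul_le_mul_of_nonneg_right (hcount.trans ?_) hv0
          exact mul_le_mul_of_nonneg_left h3 (by linarith)
      _ = K0 * ((P : ℝ) ^ k * L) * ((D : ℝ))⁻¹ := by
          rw [hv, hK0]
          have : (P : ℝ) ^ (k - 2) ≠ 0 := by positivity
          field_simp
  refine (sum_le_sum hone).trans ?_
  rw [← ENNReal.ofReal_sum_of_nonneg (fun q _ => by positivity)]
  apply ENNReal.ofReal_le_ofReal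
  rw [sum_product]
  simp only [← mul_sum, sum_const, card_univ, Fintype.card_fin, nsmul_eq_mul]
  have hh : ∑ D ∈ Icc 1 (3 * P), ((D : ℝ))⁻¹ ≤ 1 + Real.log (3 * P) := by
    have h1 := harmonic_le_one_add_log (3 * P)
    rw [harmonic_eq_sum_Icc] at h1
    push_cast at h1
    exact h1
  calc K0 * ((P : ℝ) ^ k * L) * ((k : ℝ) * ∑ D ∈ Icc 1 (3 * P), ((D : ℝ))⁻¹)
      ≤ K0 * ((P : ℝ) ^ k * L) * ((k : ℝ) * (1 + Real.log (3 * P))) := by
        have : 0 ≤ K0 * ((P : ℝ) ^ k * L) := by positivity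
        gcongr
    _ = _ := by ring

end Pool.Agent.L7h37.WA
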