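import Mathlib
import Pool.Agent.L7h67.WA.Stm
import Pool.Agent.L7h37.WA.MvbC

/-!
# Project WA: MVB
-/

set_option autoImplicit false

namespace Pool.Agent.L7h37.WA

open Finset MeasureTheory Polynomial Filter
open Pool.Agent.L7h67.WA

/-- summability used in Borel-Cantelli -/
theorem summable_aux (K q : ℝ) (hq : 0 < q) :
    Summable fun l : ℕ => 2 * K * (1 + Real.log (3 * (2 : ℝ) ^ l)) * ((2 : ℝ) ^ l) ^ (-(q / 2)) := by
  set r : ℝ := (2 : ℝ) ^ (-(q / 2)) with hr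
  have hr0 : 0 < r := Real.rpow_pos_of_pos (by norm_num) _
  have hr1 : r < 1 := Real.rpow_lt_one_of_one_lt_of_neg (by norm_num) (by linarith)
  have h1 : ∀ l : ℕ, 2 * K * (1 + Real.log (3 * (2 : ℝ) ^ l)) * ((2 : ℝ) ^ l) ^ (-(q / 2)) =
      2 * K * (1 + Real.log 3) * r ^ l + 2 * K * Real.log 2 * ((l : ℝ) ^ 1 * r ^ l) := by
    intro l
    have e1 : ((2 : ℝ) ^ l) ^ (-(q / 2)) = r ^ l := by
      rw [hr, ← Real.rpow_natCast, ← Real.rpow_mul (by norm_num), mul_comm,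
        Real.rpow_mul (by norm_num), Real.rpow_natCast]
    rw [e1, Real.log_mul (by norm_num) (by positivity), Real.log_pow]
    ring
  simp_rw [h1]
  refine ((summable_geometric_of_lt_one hr0.le hr1).mul_left _).add ?_
  refine Summable.mul_left _ ?_
  exact summable_pow_mul_geometric_of_norm_lt_one 1 (by
    rw [Real.norm_of_nonneg hr0.le]; exact hr1)

theorem ae_R_q {κ : Type} [Fintype κ] [DecidableEq κ] {k : ℕ} (hk : 2 ≤ k) (g : Fin k → ℝ[X])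
    (hg : ∀ i, (g i).natDegree = k ∧ 0 < (g i).leadingCoeff) (e : Fin k → κ)
    (he : Function.Injective e) (R : ℝ) (hR : 1 ≤ R) (q : ℝ) (hq : 0 < q)
    (hq1 : q ≤ (k : ℝ) - 1) :
    ∀ᵐ θ : κ → ℝ, (∀ i, |θ i| ≤ R) → ∀ᶠ l : ℕ in atTop,
      (cnt (fun i : Fin k => (g i).comp (X - C (θ (e i)))) (fun _ => 1) (2 ^ l)
        (((2 : ℝ) ^ l) ^ q) : ℝ) ≤ ((2 : ℝ) ^ l) ^ ((k : ℝ) + 3 / 2 * q) := by
  classical
  obtain ⟨K, hK, P0, hmain⟩ := main_est hk g hg e he R hR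
  have hpos : ∀ l : ℕ, (0 : ℝ) < (2 : ℝ) ^ l := fun l => by positivity
  have hone : ∀ l : ℕ, (1 : ℝ) ≤ (2 : ℝ) ^ l := fun l => one_le_pow₀ (by norm_num)
  have hBC := s_BC (κ → ℝ) volume ((Fin k → ℕ) × (Fin k → ℕ)) (fun l => QQ k (2 ^ l))
    (fun l p => EE g e R (((2 : ℝ) ^ l) ^ q) p)
    (fun l => ((2 : ℝ) ^ l) ^ ((k : ℝ) + 3 / 2 * q) / 2)
    (fun l => 2 * K * (1 + Real.log (3 * (2 : ℝ) ^ l)) * ((2 : ℝ) ^ l) ^ (-(q / 2)))
    (fun l p _ => measurable_EE g e R _ p)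
    (fun l => by have := hpos l; positivity)
    (fun l => by
      have h1 : 0 ≤ Real.log (3 * (2 : ℝ) ^ l) := Real.log_nonneg (by linarith [hone l])
      have := hpos l
      positivity)
    (summable_aux K q hq)
    (by
      filter_upwards [eventually_ge_atTop P0] with l hl
      have h2l : P0 ≤ 2 ^ l := hl.trans (Nat.lt_two_pow_self).le
      have hL1 : (1 : ℝ) ≤ ((2 : ℝ) ^ l) ^ q := Real.one_le_rpow (hone l) hq.le
      have hL2 : ((2 : ℝ) ^ l) ^ q ≤ (((2 ^ l : ℕ) : ℝ)) ^ (k - 1) := by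
        push_cast
        rw [← Real.rpow_natCast ((2 : ℝ) ^ l) (k - 1)]
        apply Real.rpow_le_rpow_of_exponent_le (hone l)
        rw [Nat.cast_sub (by omega)]
        push_cast
        exact hq1
      refine (hmain (2 ^ l) h2l _ hL1 hL2).trans (ENNReal.ofReal_le_ofReal (le_of_eq ?_))
      push_cast
      have e1 : ((2 : ℝ) ^ l) ^ k * ((2 : ℝ) ^ l) ^ q =
          ((2 : ℝ) ^ l) ^ (-(q / 2)) * ((2 : ℝ) ^ l) ^ ((k : ℝ) + 3 / 2 * q) := by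
        rw [← Real.rpow_natCast ((2 : ℝ) ^ l) k, ← Real.rpow_add (hpos l),
          ← Real.rpow_add (hpos l)]
        congr 1
        ring
      calc K * (((2 : ℝ) ^ l) ^ k * ((2 : ℝ) ^ l) ^ q * (1 + Real.log (3 * (2 : ℝ) ^ l)))
          = K * (1 + Real.log (3 * (2 : ℝ) ^ l)) * (((2 : ℝ) ^ l) ^ k * ((2 : ℝ) ^ l) ^ q) := by
            ring
        _ = _ := by rw [e1]; ring)
  filter_upwards [hBC] with θ hθ hbd
  have hdiag : ∀ᶠ l : ℕ in atTop, 2 * (3 : ℝ) ^ k ≤ ((2 : ℝ) ^ l) ^ (3 / 2 * q) := by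
    have h1 : Tendsto (fun l : ℕ => ((2 : ℝ) ^ l) ^ (3 / 2 * q)) atTop atTop :=
      (tendsto_rpow_atTop (by positivity)).comp (tendsto_pow_atTop_atTop_of_one_lt (by norm_num))
    exact h1.eventually_ge_atTop _
  filter_upwards [hθ, hdiag] with l hl hd
  set P : ℕ := 2 ^ l with hP
  set L : ℝ := ((2 : ℝ) ^ l) ^ q with hL
  set Y : Finset ((Fin k → ℕ) × (Fin k → ℕ)) := {p ∈ QQ k P | |Sg g e p θ| ≤ L} with hY
  have h1 : (#Y : ℝ) ≤ ((2 : ℝ) ^ l) ^ ((k : ℝ) + 3 / 2 * q) / 2 := by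
    apply hl Y (filter_subset _ _)
    intro p hp
    rw [hY, mem_filter] at hp
    exact ⟨hbd, hp.2⟩
  have h2 : cnt (fun i : Fin k => (g i).comp (X - C (θ (e i)))) (fun _ => 1) P L ≤
      #Y + (3 * P) ^ k := by
    unfold cnt
    rw [← card_filter_add_card_filter_not (s := ({p ∈ bx (fun _ : Fin k => 1) P ×ˢ
      bx (fun _ : Fin k => 1) P |
      |∑ i, ((g i).comp (X - C (θ (e i)))).eval (p.1 i : ℝ) -
        ∑ i, ((g i).comp (X - C (θ (e i)))).eval (p.2 i : ℝ)| ≤ L})) (fun p => p.1 ≠ p.2)]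
    apply Nat.add_le_add
    · apply card_le_card
      intro p hp
      rw [mem_filter, mem_filter] at hp
      rw [hY, mem_filter]
      unfold QQ
      rw [mem_filter]
      refine ⟨⟨hp.1.1, hp.2⟩, ?_⟩
      have h3 := hp.1.2
      unfold Sg
      rw [sum_sub_distrib]
      simpa [eval_comp] using h3
    · rw [← card_bx_one k P]
      refine card_le_card_of_injOn (fun p => p.1) ?_ ?_
      · intro p hp
        rw [mem_coe, mem_filter, mem_filter, mem_product] at hp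
        exact hp.1.1.1
      · intro p hp p' hp' h
        rw [mem_coe, mem_filter, mem_filter] at hp hp'
        have h3 : p.1 = p.2 := not_not.1 hp.2
        have h4 : p'.1 = p'.2 := not_not.1 hp'.2
        simp only at h
        exact Prod.ext h (by rw [← h3, ← h4, h])
  have h3 : (((3 * P) ^ k : ℕ) : ℝ) ≤ ((2 : ℝ) ^ l) ^ ((k : ℝ) + 3 / 2 * q) / 2 := by
    rw [Real.rpow_add (hpos l), Real.rpow_natCast, hP]
    push_cast
    rw [mul_pow]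
    have := hpos l
    have h4 : 0 < ((2 : ℝ) ^ l) ^ k := by positivity
    nlinarith [mul_le_mul_of_nonneg_left hd h4.le]
  calc (cnt (fun i : Fin k => (g i).comp (X - C (θ (e i)))) (fun _ => 1) P L : ℝ)
      ≤ ((#Y + (3 * P) ^ k : ℕ) : ℝ) := by exact_mod_cast h2
    _ = (#Y : ℝ) + (((3 * P) ^ k : ℕ) : ℝ) := by push_cast; ring
    _ ≤ _ := by linarith

/-- `cnt` is monotone in the last variable -/
theorem cnt_mono {ι : Type} [Fintype ι] [DecidableEq ι] (F : ι → ℝ[X]) (a : ι → ℕ) (P : ℕ)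
    {L L' : ℝ} (h : L ≤ L') : cnt F a P L ≤ cnt F a P L' := by
  classical
  unfold cnt
  apply card_le_card
  intro p hp
  rw [mem_filter] at hp ⊢
  exact ⟨hp.1, hp.2.trans h⟩

theorem cnt_le {ι : Type} [Fintype ι] [DecidableEq ι] (F : ι → ℝ[X]) (a : ι → ℕ) (P : ℕ)
    (L : ℝ) : cnt F a P L ≤ #(bx a P) * #(bx a P) := by
  classical
  unfold cnt
  rw [← card_product]
  exact card_le_card (filter_subset _ _)

/-- from the rational exponents to all exponents -/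
theorem MV_of_rat {k : ℕ} (hk : 2 ≤ k) (F : Fin k → ℝ[X]) (a : Fin k → ℕ) (A : ℝ)
    (hA : ∀ P : ℕ, ((#(bx a P) : ℕ) : ℝ) ≤ A * (P : ℝ) ^ k)
    (h : ∀ q : ℚ, (0 : ℝ) < q → (q : ℝ) ≤ (k : ℝ) - 1 → ∀ᶠ l : ℕ in atTop,
      (cnt F a (2 ^ l) (((2 : ℝ) ^ l) ^ (q : ℝ)) : ℝ) ≤
        ((2 : ℝ) ^ l) ^ ((k : ℝ) + 3 / 2 * (q : ℝ))) : MV F a := by
  intro ε hε
  have hone : ∀ l : ℕ, (1 : ℝ) ≤ (2 : ℝ) ^ l := fun l => one_le_pow₀ (by norm_num)
  have hk2 : (2 : ℝ) ≤ k := by exact_mod_cast hk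
  rcases le_or_gt ε ((k : ℝ) - 1) with hεk | hεk
  · obtain ⟨q, hq1, hq2, hq3⟩ : ∃ q : ℚ, ε ≤ q ∧ (q : ℝ) ≤ 2 * ε ∧ (q : ℝ) ≤ (k : ℝ) - 1 := by
      rcases eq_or_lt_of_le hεk with h1 | h1
      · refine ⟨(k : ℚ) - 1, ?_, ?_, ?_⟩ <;> push_cast <;> linarith
      · obtain ⟨q, h2, h3⟩ := exists_rat_btwn (show ε < min (2 * ε) ((k : ℝ) - 1) from
          lt_min (by linarith) h1)
        rw [lt_min_iff] at h3
        exact ⟨q, h2.le, h3.1.le, h3.2.le⟩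
    filter_upwards [h q (by linarith) hq3] with l hl
    have h1 : cnt F a (2 ^ l) (((2 : ℝ) ^ l) ^ ε) ≤ cnt F a (2 ^ l) (((2 : ℝ) ^ l) ^ (q : ℝ)) :=
      cnt_mono F a _ (Real.rpow_le_rpow_of_exponent_le (hone l) hq1)
    calc (cnt F a (2 ^ l) (((2 : ℝ) ^ l) ^ ε) : ℝ) ≤
          (cnt F a (2 ^ l) (((2 : ℝ) ^ l) ^ (q : ℝ)) : ℝ) := by exact_mod_cast h1
      _ ≤ _ := hl
      _ ≤ _ := Real.rpow_le_rpow_of_exponent_le (hone l) (by linarith)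
  · have hpos : ∀ l : ℕ, (0 : ℝ) < (2 : ℝ) ^ l := fun l => by positivity
    have hdiag : ∀ᶠ l : ℕ in atTop, A * A ≤ ((2 : ℝ) ^ l) ^ (1 : ℝ) := by
      have h1 : Tendsto (fun l : ℕ => ((2 : ℝ) ^ l) ^ (1 : ℝ)) atTop atTop :=
        (tendsto_rpow_atTop (by positivity)).comp
          (tendsto_pow_atTop_atTop_of_one_lt (by norm_num))
      exact h1.eventually_ge_atTop _
    filter_upwards [hdiag] with l hl
    have h1 := cnt_le F a (2 ^ l) (((2 : ℝ) ^ l) ^ ε)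
    have h2 := hA (2 ^ l)
    push_cast at h2
    have h3 : (cnt F a (2 ^ l) (((2 : ℝ) ^ l) ^ ε) : ℝ) ≤
        (A * ((2 : ℝ) ^ l) ^ k) * (A * ((2 : ℝ) ^ l) ^ k) := by
      calc (cnt F a (2 ^ l) (((2 : ℝ) ^ l) ^ ε) : ℝ) ≤
            ((#(bx a (2 ^ l)) : ℕ) : ℝ) * ((#(bx a (2 ^ l)) : ℕ) : ℝ) := by exact_mod_cast h1
        _ ≤ _ := mul_le_mul h2 h2 (by positivity) (le_trans (by positivity) h2)
    have h4 : (A * ((2 : ℝ) ^ l) ^ k) * (A * ((2 : ℝ) ^ l) ^ k) =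
        (A * A) * (((2 : ℝ) ^ l) ^ (k : ℝ) * ((2 : ℝ) ^ l) ^ (k : ℝ)) := by
      rw [Real.rpow_natCast]; ring
    rw [h4] at h3
    refine h3.trans ?_
    have hk0 : 0 < ((2 : ℝ) ^ l) ^ (k : ℝ) := Real.rpow_pos_of_pos (hpos l) _
    calc (A * A) * (((2 : ℝ) ^ l) ^ (k : ℝ) * ((2 : ℝ) ^ l) ^ (k : ℝ))
        ≤ ((2 : ℝ) ^ l) ^ (1 : ℝ) * (((2 : ℝ) ^ l) ^ (k : ℝ) * ((2 : ℝ) ^ l) ^ (k : ℝ)) := by
          gcongr
      _ = ((2 : ℝ) ^ l) ^ (1 + ((k : ℝ) + k)) := by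
          rw [← Real.rpow_add (hpos l), ← Real.rpow_add (hpos l)]
      _ ≤ _ := Real.rpow_le_rpow_of_exponent_le (hone l) (by linarith)

theorem s_MVB : Pool.Agent.L7h67.WA.S_MVB := by
  intro k κ _ _ e g hk he hg
  have h1 : ∀ᵐ θ : κ → ℝ, ∀ R : ℕ, ∀ q : ℚ, (1 ≤ R ∧ (0 : ℝ) < q ∧ (q : ℝ) ≤ (k : ℝ) - 1) →
      (∀ i, |θ i| ≤ R) → ∀ᶠ l : ℕ in atTop,
      (cnt (fun i : Fin k => (g i).comp (X - C (θ (e i)))) (fun _ => 1) (2 ^ l)
        (((2 : ℝ) ^ l) ^ (q : ℝ)) : ℝ) ≤ ((2 : ℝ) ^ l) ^ ((k : ℝ) + 3 / 2 * (q : ℝ)) := by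
    rw [ae_all_iff]
    intro R
    rw [ae_all_iff]
    intro q
    by_cases hRq : 1 ≤ R ∧ (0 : ℝ) < q ∧ (q : ℝ) ≤ (k : ℝ) - 1
    · filter_upwards [ae_R_q hk g hg e he R (by exact_mod_cast hRq.1) q hRq.2.1 hRq.2.2] with θ hθ
      exact fun _ => hθ
    · exact ae_of_all _ fun θ h => absurd h hRq
  filter_upwards [h1] with θ hθ
  obtain ⟨R, hR⟩ := exists_nat_ge (1 + ∑ i, |θ i|)
  have hs0 : 0 ≤ ∑ i, |θ i| := sum_nonneg fun i _ => abs_nonneg (θ i)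
  have hR1 : 1 ≤ R := by
    have : (1 : ℝ) ≤ R := by linarith
    exact_mod_cast this
  have hRi : ∀ i, |θ i| ≤ R := by
    intro i
    have : |θ i| ≤ ∑ i, |θ i| := single_le_sum (f := fun i => |θ i|)
      (fun _ _ => abs_nonneg _) (mem_univ i)
    linarith
  refine MV_of_rat hk _ _ (3 ^ k) ?_ ?_
  · intro P
    rw [card_bx_one]
    push_cast
    rw [mul_pow]
  · intro q hq1 hq2
    exact hθ R q ⟨hR1, hq1, hq2⟩ hRi

end Pool.Agent.L7h37.WA
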