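import Mathlib
import Pool.Agent.L7h67.WA.Stm
import Pool.Agent.L7h37.WA.Loc

/-!
# Project WA: NT, the counting of near solutions of the full Vinogradov type system
-/

set_option autoImplicit false

namespace Pool.Agent.L7h37.WA

open Finset
open Pool.Agent.L7h67.WA (bx)

theorem card_bx (k P : ℕ) : #(bx (fun i : Fin k => 8 ^ i.val) P) ≤ (4 * 8 ^ k) ^ k * P ^ k := by
  unfold bx
  rw [Fintype.card_piFinset]
  calc ∏ i : Fin k, #(Ioc (8 ^ i.val * P) (4 * (8 ^ i.val * P)))
      ≤ ∏ _i : Fin k, (4 * 8 ^ k * P) := by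
        refine prod_le_prod' fun i _ => ?_
        rw [Nat.card_Ioc]
        have h1 : 8 ^ i.val ≤ 8 ^ k := Nat.pow_le_pow_right (by norm_num) i.isLt.le
        have h2 : 8 ^ i.val * P ≤ 8 ^ k * P := Nat.mul_le_mul_right _ h1
        have h3 : 4 * 8 ^ k * P = 4 * (8 ^ k * P) := by ring
        omega
    _ = (4 * 8 ^ k) ^ k * P ^ k := by
        rw [prod_const, card_univ, Fintype.card_fin, mul_pow]

theorem s_NT : Pool.Agent.L7h67.WA.S_NT := by
  intro k hk
  -- constants of LOC
  have hloc : ∀ m : ℕ, ∃ C : ℝ, 0 < C ∧ (m < k → ∀ (P : ℕ) (T : ℝ), 1 ≤ P →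
    (P : ℝ) ^ m ≤ T → T ≤ (P : ℝ) ^ (m + 1) → ∀ (c : ℕ → ℝ) (X : Finset (Fin (k - m) → ℕ)),
    (∀ x ∈ X, ∀ i, 8 ^ (0 + i.val) * P ≤ x i ∧ x i ≤ 4 * (8 ^ (0 + i.val) * P)) →
    (∀ x ∈ X, ∀ j ∈ range (k - m), |∑ i, (x i : ℝ) ^ (m + 1 + j) - c j| ≤ T) →
    (#X : ℝ) ≤ C * T / (P : ℝ) ^ m) := by
    intro m
    by_cases hm : m < k
    · obtain ⟨C, hC, h⟩ := s_LOC (k - m) m 0 (by omega)
      exact ⟨C, hC, fun _ => h⟩
    · exact ⟨1, one_pos, fun h => absurd h hm⟩
  choose C hC hLOC using hloc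
  set A : ℝ := (((4 * 8 ^ k) ^ k : ℕ) : ℝ) with hA
  have hA1 : 1 ≤ A := by
    rw [hA]; exact_mod_cast Nat.one_le_iff_ne_zero.2 (by positivity)
  refine ⟨A * A * (1 + ∑ m ∈ range k, C m), ?_, ?_⟩
  · have : 0 ≤ ∑ m ∈ range k, C m := sum_nonneg fun m _ => (hC m).le
    positivity
  intro P T hP hT X hX hc
  have hP1 : (1 : ℝ) ≤ P := by exact_mod_cast hP
  have hsum0 : 0 ≤ ∑ m ∈ range k, C m := sum_nonneg fun m _ => (hC m).le
  have hbx : ((#(bx (fun i : Fin k => 8 ^ i.val) P) : ℕ) : ℝ) ≤ A * (P : ℝ) ^ k := by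
    rw [hA]; exact_mod_cast card_bx k P
  rcases le_or_gt ((P : ℝ) ^ k) T with hbig | hsmall
  · have hsub : X ⊆ bx (fun i : Fin k => 8 ^ i.val) P ×ˢ bx (fun i : Fin k => 8 ^ i.val) P := by
      intro p hp
      rw [mem_product]
      exact hX p hp
    have h1 : (#X : ℝ) ≤ ((#(bx (fun i : Fin k => 8 ^ i.val) P) : ℕ) : ℝ) *
        ((#(bx (fun i : Fin k => 8 ^ i.val) P) : ℕ) : ℝ) := by
      have := card_le_card hsub
      rw [card_product] at this
      exact_mod_cast this
    calc (#X : ℝ) ≤ (A * (P : ℝ) ^ k) * (A * (P : ℝ) ^ k) :=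
          h1.trans (mul_le_mul hbx hbx (by positivity) (by positivity))
      _ = A * A * (P : ℝ) ^ k * (P : ℝ) ^ k := by ring
      _ ≤ A * A * T * (P : ℝ) ^ k := by gcongr
      _ ≤ A * A * (1 + ∑ m ∈ range k, C m) * T * (P : ℝ) ^ k := by
          have : A * A * T ≤ A * A * (1 + ∑ m ∈ range k, C m) * T := by
            have h0 : 0 ≤ A * A * T := by positivity
            nlinarith [mul_nonneg h0 hsum0]
          gcongr
  · -- the exponent `m`
    obtain ⟨m, hmk, hm1, hm2⟩ : ∃ m, m < k ∧ (P : ℝ) ^ m ≤ T ∧ T ≤ (P : ℝ) ^ (m + 1) := by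
      classical
      have hex : ∃ n, T < (P : ℝ) ^ n := ⟨k, hsmall⟩
      have h1 := Nat.find_spec hex
      have h2 : Nat.find hex ≤ k := Nat.find_min' hex hsmall
      have h3 : Nat.find hex ≠ 0 := by
        intro h0
        rw [h0, pow_zero] at h1
        linarith
      obtain ⟨m, hm⟩ := Nat.exists_eq_succ_of_ne_zero h3
      refine ⟨m, by omega, ?_, ?_⟩
      · exact not_lt.1 (Nat.find_min hex (by omega))
      · have : T < (P : ℝ) ^ (m + 1) := by rw [← Nat.succ_eq_add_one, ← hm]; exact h1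
        exact this.le
    -- projection
    set π : (Fin k → ℕ) × (Fin k → ℕ) → (Fin m → ℕ) × (Fin k → ℕ) :=
      fun p => (fun i => p.1 ⟨(k - m) + i.val, by omega⟩, p.2) with hπ
    have himg : ((#(X.image π) : ℕ) : ℝ) ≤ A * (P : ℝ) ^ m * (A * (P : ℝ) ^ k) := by
      have hsub : X.image π ⊆ (Fintype.piFinset fun _ : Fin m => Ioc 0 (4 * 8 ^ k * P)) ×ˢ
          bx (fun i : Fin k => 8 ^ i.val) P := by
        intro q hq
        obtain ⟨p, hp, rfl⟩ := mem_image.1 hq
        obtain ⟨h1, h2⟩ := hX p hp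
        rw [mem_product]
        refine ⟨?_, h2⟩
        rw [Fintype.mem_piFinset]
        intro i
        unfold bx at h1
        rw [Fintype.mem_piFinset] at h1
        have h3 := h1 ⟨(k - m) + i.val, by omega⟩
        rw [mem_Ioc] at h3 ⊢
        simp only at h3
        have h4 : 8 ^ ((k - m) + i.val) ≤ 8 ^ k := Nat.pow_le_pow_right (by norm_num) (by omega)
        have h6 : 8 ^ ((k - m) + i.val) * P ≤ 8 ^ k * P := Nat.mul_le_mul_right _ h4
        constructor
        · simp only [hπ]; omega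
        · simp only [hπ]
          have : 4 * 8 ^ k * P = 4 * (8 ^ k * P) := by ring
          omega
      have h1 := card_le_card hsub
      rw [card_product, Fintype.card_piFinset, prod_const, card_univ, Fintype.card_fin,
        Nat.card_Ioc, Nat.sub_zero] at h1
      have h2 : (4 * 8 ^ k * P) ^ m ≤ (4 * 8 ^ k) ^ k * P ^ m := by
        rw [mul_pow]
        gcongr
        have : 1 ≤ 8 ^ k := Nat.one_le_iff_ne_zero.2 (by positivity)
        omega
      have h3 : ((#(X.image π) : ℕ) : ℝ) ≤ (((4 * 8 ^ k * P) ^ m : ℕ) : ℝ) *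
          ((#(bx (fun i : Fin k => 8 ^ i.val) P) : ℕ) : ℝ) := by exact_mod_cast h1
      refine h3.trans (mul_le_mul ?_ hbx (by positivity) (by positivity))
      rw [hA]
      exact_mod_cast h2
    have hfib : ∀ q ∈ X.image π, ((#{p ∈ X | π p = q} : ℕ) : ℝ) ≤ C m * T / (P : ℝ) ^ m := by
      intro q hq
      set Y : Finset ((Fin k → ℕ) × (Fin k → ℕ)) := {p ∈ X | π p = q} with hY
      set g : (Fin k → ℕ) × (Fin k → ℕ) → (Fin (k - m) → ℕ) :=
        fun p i => p.1 ⟨i.val, by omega⟩ with hg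
      have hinj : Set.InjOn g Y := by
        intro p hp p' hp' h
        rw [mem_coe, hY, mem_filter] at hp hp'
        have hpp : π p = π p' := by rw [hp.2, hp'.2]
        simp only [hπ, Prod.mk.injEq] at hpp
        refine Prod.ext ?_ hpp.2
        funext i
        by_cases hi : i.val < k - m
        · exact congrFun h ⟨i.val, hi⟩
        · have := congrFun hpp.1 ⟨i.val - (k - m), by omega⟩
          simp only at this
          have e : (k - m) + (i.val - (k - m)) = i.val := by omega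
          simp only [e] at this
          exact this
      rw [← card_image_of_injOn hinj]
      refine hLOC m hmk P T hP hm1 hm2 (fun j => ∑ i, (q.2 i : ℝ) ^ (m + 1 + j) -
        ∑ i : Fin m, (q.1 i : ℝ) ^ (m + 1 + j)) _ ?_ ?_
      · intro x hx i
        obtain ⟨p, hp, rfl⟩ := mem_image.1 hx
        rw [hY, mem_filter] at hp
        have h1 := (hX p hp.1).1
        unfold bx at h1
        rw [Fintype.mem_piFinset] at h1
        have h3 := h1 ⟨i.val, by omega⟩
        rw [mem_Ioc] at h3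
        simp only [hg, zero_add]
        exact ⟨h3.1.le, h3.2⟩
      · intro x hx j hj
        obtain ⟨p, hp, rfl⟩ := mem_image.1 hx
        rw [hY, mem_filter] at hp
        rw [mem_range] at hj
        have h1 := hc p hp.1 (m + 1 + j) (by rw [mem_Icc]; omega)
        have hsplit : ∑ i, (p.1 i : ℝ) ^ (m + 1 + j) =
            ∑ i : Fin (k - m), (g p i : ℝ) ^ (m + 1 + j) +
              ∑ i : Fin m, (q.1 i : ℝ) ^ (m + 1 + j) := by
          have hk' : (k - m) + m = k := by omega
          have h4 : ∑ i : Fin ((k - m) + m), (p.1 (Fin.cast hk' i) : ℝ) ^ (m + 1 + j) =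
              ∑ i, (p.1 i : ℝ) ^ (m + 1 + j) :=
            Fintype.sum_equiv (finCongr hk') _ _ (fun i => rfl)
          rw [← h4, Fin.sum_univ_add]
          congr 1
          · rw [← hp.2]
            refine sum_congr rfl fun i _ => ?_
            rfl
        have hq2 : q.2 = p.2 := by rw [← hp.2]
        rw [hsplit, ← hq2] at h1
        convert h1 using 2
        ring
    have hcard : (#X : ℝ) = ∑ q ∈ X.image π, ((#{p ∈ X | π p = q} : ℕ) : ℝ) := by
      rw [card_eq_sum_card_image π X]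
      push_cast
      rfl
    have hCm : C m ≤ 1 + ∑ m ∈ range k, C m := by
      have : C m ≤ ∑ m ∈ range k, C m :=
        single_le_sum (f := C) (fun i _ => (hC i).le) (mem_range.2 hmk)
      linarith
    calc (#X : ℝ) = ∑ q ∈ X.image π, ((#{p ∈ X | π p = q} : ℕ) : ℝ) := hcard
      _ ≤ ∑ _q ∈ X.image π, C m * T / (P : ℝ) ^ m := sum_le_sum hfib
      _ = ((#(X.image π) : ℕ) : ℝ) * (C m * T / (P : ℝ) ^ m) := by rw [sum_const, nsmul_eq_mul]
      _ ≤ (A * (P : ℝ) ^ m * (A * (P : ℝ) ^ k)) * (C m * T / (P : ℝ) ^ m) := by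
          have := hC m
          exact mul_le_mul_of_nonneg_right himg (by positivity)
      _ = A * A * C m * T * (P : ℝ) ^ k := by
          have : (P : ℝ) ^ m ≠ 0 := by positivity
          field_simp
      _ ≤ A * A * (1 + ∑ m ∈ range k, C m) * T * (P : ℝ) ^ k := by gcongr

end Pool.Agent.L7h37.WA
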