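import Mathlib
import Pool.Agent.L7h67.WA.Stm
import Pool.Agent.L7h37.WA.Nt
import Pool.Agent.L7h37.WA.Slice
import Pool.Agent.L7h37.WA.Mvb

/-!
# Project WA: MVC, the mean value for almost all lower order coefficients
-/

set_option autoImplicit false

namespace Pool.Agent.L7h37.WA

open Finset MeasureTheory Polynomial Filter
open Pool.Agent.L7h67.WA

/-- difference of the power sums -/
def Sj {k : ℕ} (p : (Fin k → ℕ) × (Fin k → ℕ)) (j : ℕ) : ℤ :=
  ∑ i, (p.1 i : ℤ) ^ j - ∑ i, (p.2 i : ℤ) ^ j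

theorem Sj_cast {k : ℕ} (p : (Fin k → ℕ) × (Fin k → ℕ)) (j : ℕ) :
    ((Sj p j : ℤ) : ℝ) = ∑ i, (p.1 i : ℝ) ^ j - ∑ i, (p.2 i : ℝ) ^ j := by
  unfold Sj
  push_cast
  rfl

/-- the difference of the two perturbed forms -/
noncomputable def Sf {k : ℕ} (p : (Fin k → ℕ) × (Fin k → ℕ)) (θ : Fin k → ℝ) : ℝ :=
  (Sj p k : ℝ) + ∑ j : Fin k, θ j * (Sj p j.val : ℝ)

theorem eval_pp (k : ℕ) (θ : Fin k → ℝ) (x : ℝ) :
    (pp k θ).eval x = x ^ k + ∑ j : Fin k, θ j * x ^ j.val := by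
  unfold pp
  rw [eval_add, eval_finsetSum]
  simp

theorem Sf_eq {k : ℕ} (p : (Fin k → ℕ) × (Fin k → ℕ)) (θ : Fin k → ℝ) :
    ∑ i, (pp k θ).eval (p.1 i : ℝ) - ∑ i, (pp k θ).eval (p.2 i : ℝ) = Sf p θ := by
  unfold Sf
  simp only [eval_pp, Sj_cast, sum_add_distrib]
  rw [sum_comm, sum_comm (s := (univ : Finset (Fin k))) (t := (univ : Finset (Fin k)))
    (f := fun i j => θ j * (p.2 i : ℝ) ^ j.val)]
  simp only [← mul_sum, mul_sub, sum_sub_distrib]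
  ring

/-- the largest difference of the lower power sums -/
def TT {k : ℕ} (p : (Fin k → ℕ) × (Fin k → ℕ)) : ℕ := (Icc 1 (k - 1)).sup fun j => (Sj p j).natAbs

theorem le_TT {k : ℕ} (p : (Fin k → ℕ) × (Fin k → ℕ)) {j : ℕ} (h1 : 1 ≤ j) (h2 : j < k) :
    |((Sj p j : ℤ) : ℝ)| ≤ TT p := by
  have h3 : (Sj p j).natAbs ≤ TT p :=
    le_sup (f := fun j => (Sj p j).natAbs) (mem_Icc.2 ⟨h1, by omega⟩)
  rw [← Int.cast_abs, Int.abs_eq_natAbs]
  exact_mod_cast h3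

theorem exists_TT {k : ℕ} (hk : 2 ≤ k) (p : (Fin k → ℕ) × (Fin k → ℕ)) :
    ∃ j : Fin k, |((Sj p j.val : ℤ) : ℝ)| = TT p := by
  obtain ⟨j, hj, h⟩ := exists_mem_eq_sup (Icc 1 (k - 1)) ⟨1, by rw [mem_Icc]; omega⟩
    fun j => (Sj p j).natAbs
  rw [mem_Icc] at hj
  refine ⟨⟨j, by omega⟩, ?_⟩
  unfold TT
  rw [h, ← Int.cast_abs, Int.abs_eq_natAbs]
  exact Int.cast_natCast _

/-- the coefficients for which the pair is a near solution -/
def EF {k : ℕ} (R L : ℝ) (p : (Fin k → ℕ) × (Fin k → ℕ)) : Set (Fin k → ℝ) :=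
  {θ | (∀ i, |θ i| ≤ R) ∧ |Sf p θ| ≤ L}

theorem measurable_EF {k : ℕ} (R L : ℝ)
    (p : (Fin k → ℕ) × (Fin k → ℕ)) : MeasurableSet (EF R L p) := by
  apply IsClosed.measurableSet
  have h1 : IsClosed {θ : Fin k → ℝ | ∀ i, |θ i| ≤ R} := by
    have : {θ : Fin k → ℝ | ∀ i, |θ i| ≤ R} = ⋂ i, {θ : Fin k → ℝ | |θ i| ≤ R} := by
      ext θ; simp
    rw [this]
    exact isClosed_iInter fun i => isClosed_le (by fun_prop) continuous_const
  have h2 : IsClosed {θ : Fin k → ℝ | |Sf p θ| ≤ L} := by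
    refine isClosed_le ?_ continuous_const
    unfold Sf
    fun_prop
  exact h1.inter h2

theorem volume_EF {k : ℕ} (hk : 2 ≤ k) (R L : ℝ) (hR : 0 ≤ R) (hL : 0 ≤ L)
    (p : (Fin k → ℕ) × (Fin k → ℕ)) (t : ℝ) (ht : 0 < t) (htT : t ≤ TT p) :
    volume (EF R L p) ≤ ENNReal.ofReal ((2 * R) ^ (k - 1) * (2 * L / t)) := by
  obtain ⟨j, hj⟩ := exists_TT hk p
  have h := s_SLICE (Fin k) j R (2 * L / t) (EF R L p) hR (by positivity) (measurable_EF R L p)
    (fun θ hθ => hθ.1) ?_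
  · rwa [Fintype.card_fin] at h
  · intro θ hθ s hs
    have hdiff : (s - θ j) * (Sj p j.val : ℝ) = Sf p (Function.update θ j s) - Sf p θ := by
      unfold Sf
      rw [add_sub_add_left_eq_sub, ← sum_sub_distrib, sum_eq_single j]
      · rw [Function.update_self]; ring
      · intro i _ hi
        rw [Function.update_of_ne hi]; ring
      · intro h; exact absurd (mem_univ _) h
    have h4 : |Sf p (Function.update θ j s) - Sf p θ| ≤ 2 * L := by
      refine (abs_sub _ _).trans ?_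
      linarith [hs.2, hθ.2]
    rw [← hdiff, abs_mul, hj] at h4
    rw [le_div_iff₀ ht]
    exact (mul_le_mul_of_nonneg_left htT (abs_nonneg _)).trans h4

theorem top_EF {k : ℕ} (_hk : 2 ≤ k) (R L : ℝ) (hR : 0 ≤ R)
    (p : (Fin k → ℕ) × (Fin k → ℕ)) (hne : (EF R L p).Nonempty) :
    |((Sj p k : ℤ) : ℝ)| ≤ L + k * R * TT p := by
  obtain ⟨θ, h1, h2⟩ := hne
  have h3 : ((Sj p k : ℤ) : ℝ) = Sf p θ - ∑ j : Fin k, θ j * (Sj p j.val : ℝ) := by
    unfold Sf; ring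
  rw [h3]
  refine (abs_sub _ _).trans (add_le_add h2 ?_)
  refine (abs_sum_le_sum_abs _ _).trans ?_
  calc ∑ j : Fin k, |θ j * (Sj p j.val : ℝ)| ≤ ∑ _j : Fin k, R * TT p := by
        refine sum_le_sum fun j _ => ?_
        rw [abs_mul]
        refine mul_le_mul (h1 j) ?_ (abs_nonneg _) hR
        rcases Nat.eq_zero_or_pos j.val with h0 | h0
        · have : Sj p j.val = 0 := by rw [h0]; unfold Sj; simp
          rw [this]
          simp
        · exact le_TT p h0 j.isLt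
    _ = _ := by rw [sum_const, card_univ, Fintype.card_fin, nsmul_eq_mul]; ring

/-- the box of the problem -/
abbrev bb (k P : ℕ) : Finset (Fin k → ℕ) := bx (fun i : Fin k => 8 ^ i.val) P

theorem mem_bb {k P : ℕ} {x : Fin k → ℕ} (h : x ∈ bb k P) (i : Fin k) : x i ≤ 4 * 8 ^ k * P := by
  unfold bb bx at h
  rw [Fintype.mem_piFinset] at h
  have h1 := (mem_Ioc.1 (h i)).2
  simp only at h1
  have h2 : 8 ^ i.val ≤ 8 ^ k := Nat.pow_le_pow_right (by norm_num) i.isLt.le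
  have h3 : 8 ^ i.val * P ≤ 8 ^ k * P := Nat.mul_le_mul_right _ h2
  have h4 : 4 * 8 ^ k * P = 4 * (8 ^ k * P) := by ring
  omega

theorem TT_lt {k : ℕ} {l : ℕ} {p : (Fin k → ℕ) × (Fin k → ℕ)}
    (h1 : p.1 ∈ bb k (2 ^ l)) (h2 : p.2 ∈ bb k (2 ^ l)) :
    TT p < 2 ^ (k * (4 * 8 ^ k) ^ k + l * k) := by
  unfold TT
  rw [Finset.sup_lt_iff (by positivity)]
  intro j hj
  rw [mem_Icc] at hj
  have hb : ∀ x : Fin k → ℕ, x ∈ bb k (2 ^ l) →
      ∑ i, x i ^ j ≤ k * (4 * 8 ^ k) ^ k * 2 ^ (l * k) := by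
    intro x hx
    calc ∑ i, x i ^ j ≤ ∑ _i : Fin k, (4 * 8 ^ k * 2 ^ l) ^ k := by
          refine sum_le_sum fun i _ => ?_
          have h3 := mem_bb hx i
          have h4 : 1 ≤ 4 * 8 ^ k * 2 ^ l := Nat.one_le_iff_ne_zero.2 (by positivity)
          exact (Nat.pow_le_pow_left h3 j).trans (Nat.pow_le_pow_right h4 (by omega))
      _ = _ := by
          rw [sum_const, card_univ, Fintype.card_fin, smul_eq_mul, mul_pow, ← pow_mul, mul_assoc]
  have h5 : (Sj p j).natAbs ≤ k * (4 * 8 ^ k) ^ k * 2 ^ (l * k) := by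
    have ha := hb _ h1
    have hb' := hb _ h2
    have e : Sj p j = ((∑ i, p.1 i ^ j : ℕ) : ℤ) - ((∑ i, p.2 i ^ j : ℕ) : ℤ) := by
      unfold Sj; push_cast; rfl
    rw [e]
    omega
  refine lt_of_le_of_lt h5 ?_
  rw [pow_add]
  exact Nat.mul_lt_mul_of_pos_right Nat.lt_two_pow_self (by positivity)

open Classical in
/-- pairs with different lower power sums -/
noncomputable def QF (k P : ℕ) : Finset ((Fin k → ℕ) × (Fin k → ℕ)) :=
  {p ∈ bb k P ×ˢ bb k P | TT p ≠ 0}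

theorem main_estF {k : ℕ} (hk : 2 ≤ k) (R : ℝ) (hR : 1 ≤ R) :
    ∃ K : ℝ, 0 < K ∧ ∀ l : ℕ, ∀ L : ℝ, 1 ≤ L →
      ∑ p ∈ QF k (2 ^ l), volume (EF R L p) ≤
        ENNReal.ofReal (K * (1 + (l : ℝ)) * (((2 : ℝ) ^ l) ^ k * L ^ 2)) := by
  classical
  obtain ⟨C, hC, hNT⟩ := s_NT k (by omega)
  set c0 : ℕ := k * (4 * 8 ^ k) ^ k with hc0
  have hk0 : (0 : ℝ) < k := by
    have : 0 < k := by omega
    exact_mod_cast this
  have hk1 : (1 : ℝ) ≤ k := by
    have : 1 ≤ k := by omega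
    exact_mod_cast this
  set K1 : ℝ := C * (2 * (k * R) * 2) * ((2 * R) ^ (k - 1) * 2) with hK1
  have hK1pos : 0 < K1 := by positivity
  refine ⟨(c0 + k + 1) * K1, by positivity, ?_⟩
  intro l L hL
  have hmaps : ∀ p ∈ QF k (2 ^ l), Nat.log 2 (TT p) ∈ range (c0 + l * k) := by
    intro p hp
    unfold QF at hp
    rw [mem_filter, mem_product] at hp
    rw [mem_range]
    exact Nat.log_lt_of_lt_pow hp.2 (TT_lt hp.1.1 hp.1.2)
  rw [← sum_fiberwise_of_maps_to hmaps]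
  have hone : ∀ a ∈ range (c0 + l * k),
      ∑ p ∈ QF k (2 ^ l) with Nat.log 2 (TT p) = a, volume (EF R L p) ≤
        ENNReal.ofReal (K1 * (((2 : ℝ) ^ l) ^ k * L ^ 2)) := by
    intro a _
    set v : ℝ := (2 * R) ^ (k - 1) * (2 * L / 2 ^ a) with hv
    have hv0 : 0 ≤ v := by positivity
    set Y : Finset ((Fin k → ℕ) × (Fin k → ℕ)) :=
      {p ∈ QF k (2 ^ l) | Nat.log 2 (TT p) = a ∧ (EF R L p).Nonempty} with hY
    have hYmem : ∀ p ∈ Y, (p.1 ∈ bb k (2 ^ l) ∧ p.2 ∈ bb k (2 ^ l)) ∧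
        (2 ^ a ≤ TT p ∧ TT p < 2 ^ (a + 1)) ∧ (EF R L p).Nonempty := by
      intro p hp
      rw [hY, mem_filter] at hp
      obtain ⟨h1, h2, h3⟩ := hp
      unfold QF at h1
      rw [mem_filter, mem_product] at h1
      refine ⟨h1.1, ?_, h3⟩
      rw [← h2]
      exact ⟨Nat.pow_log_le_self 2 h1.2, Nat.lt_pow_succ_log_self (by norm_num) _⟩
    have h1 : ∑ p ∈ QF k (2 ^ l) with Nat.log 2 (TT p) = a, volume (EF R L p) =
        ∑ p ∈ Y, volume (EF R L p) := by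
      symm
      apply sum_subset
      · intro p hp
        rw [hY, mem_filter] at hp
        rw [mem_filter]
        exact ⟨hp.1, hp.2.1⟩
      · intro p hp hp'
        rw [mem_filter] at hp
        rw [hY, mem_filter, not_and, not_and] at hp'
        have := hp' hp.1 hp.2
        rw [Set.not_nonempty_iff_eq_empty] at this
        rw [this, measure_empty]
    have h2 : ∑ p ∈ Y, volume (EF R L p) ≤ ∑ _p ∈ Y, ENNReal.ofReal v := by
      refine sum_le_sum fun p hp => ?_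
      obtain ⟨ha, hb, hc'⟩ := hYmem p hp
      exact volume_EF hk R L (by linarith) (by linarith) p (2 ^ a) (by positivity)
        (by exact_mod_cast hb.1)
    set T : ℝ := L + k * R * 2 ^ (a + 1) with hT
    have hx1 : 1 ≤ k * R * 2 ^ (a + 1) := by
      have h3 : (1 : ℝ) ≤ 2 ^ (a + 1) := one_le_pow₀ (by norm_num)
      have h4 : (1 : ℝ) ≤ k * R := one_le_mul_of_one_le_of_one_le hk1 hR
      exact one_le_mul_of_one_le_of_one_le h4 h3
    have hT1 : 1 ≤ T := by linarith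
    have hTle : T ≤ 2 * (L * (k * R * 2 ^ (a + 1))) := by nlinarith
    have hcount : (#Y : ℝ) ≤ C * T * (((2 ^ l : ℕ) : ℝ)) ^ k := by
      refine hNT (2 ^ l) T Nat.one_le_two_pow hT1 Y (fun p hp => (hYmem p hp).1) ?_
      intro p hp j hj
      obtain ⟨ha, hb, hc'⟩ := hYmem p hp
      rw [mem_Icc] at hj
      rw [← Sj_cast]
      have hTT : (TT p : ℝ) ≤ 2 ^ (a + 1) := by exact_mod_cast hb.2.le
      rcases eq_or_lt_of_le hj.2 with h5 | h5
      · rw [h5]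
        refine (top_EF hk R L (by linarith) p hc').trans ?_
        rw [hT]
        have : (k : ℝ) * R * TT p ≤ k * R * 2 ^ (a + 1) :=
          mul_le_mul_of_nonneg_left hTT (by positivity)
        linarith
      · refine (le_TT p hj.1 h5).trans (hTT.trans ?_)
        have h4 : (1 : ℝ) ≤ k * R := one_le_mul_of_one_le_of_one_le hk1 hR
        have h6 : (0 : ℝ) < 2 ^ (a + 1) := by positivity
        have h7 : (2 : ℝ) ^ (a + 1) ≤ k * R * 2 ^ (a + 1) := by nlinarith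
        linarith
    rw [h1]
    refine h2.trans ?_
    rw [sum_const, nsmul_eq_mul, ← ENNReal.ofReal_natCast, ← ENNReal.ofReal_mul (by positivity)]
    apply ENNReal.ofReal_le_ofReal
    push_cast at hcount
    calc (#Y : ℝ) * v ≤ (C * (2 * (L * (k * R * 2 ^ (a + 1)))) * ((2 : ℝ) ^ l) ^ k) * v := by
          refine mul_le_mul_of_nonneg_right (hcount.trans ?_) hv0
          gcongr
      _ = K1 * (((2 : ℝ) ^ l) ^ k * L ^ 2) := by
          rw [hv, hK1, pow_succ]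
          have : (2 : ℝ) ^ a ≠ 0 := by positivity
          field_simp
  refine (sum_le_sum hone).trans ?_
  rw [sum_const, card_range, nsmul_eq_mul, ← ENNReal.ofReal_natCast,
    ← ENNReal.ofReal_mul (by positivity)]
  apply ENNReal.ofReal_le_ofReal
  push_cast
  have h6 : (c0 : ℝ) + l * k ≤ (c0 + k + 1) * (1 + (l : ℝ)) := by
    have h7 : (0 : ℝ) ≤ l := by positivity
    have h8 : (0 : ℝ) ≤ c0 := by positivity
    nlinarith [mul_nonneg h7 h8]
  have h9 : 0 ≤ K1 * (((2 : ℝ) ^ l) ^ k * L ^ 2) := by positivity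
  calc ((c0 : ℝ) + l * k) * (K1 * (((2 : ℝ) ^ l) ^ k * L ^ 2))
      ≤ ((c0 + k + 1) * (1 + (l : ℝ))) * (K1 * (((2 : ℝ) ^ l) ^ k * L ^ 2)) :=
        mul_le_mul_of_nonneg_right h6 h9
    _ = _ := by ring

/-- summability used in Borel-Cantelli -/
theorem summable_auxF (K q : ℝ) (hq : 0 < q) :
    Summable fun l : ℕ => 2 * K * (1 + (l : ℝ)) * ((2 : ℝ) ^ l) ^ (-(q / 2)) := by
  set r : ℝ := (2 : ℝ) ^ (-(q / 2)) with hr
  have hr0 : 0 < r := Real.rpow_pos_of_pos (by norm_num) _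
  have hr1 : r < 1 := Real.rpow_lt_one_of_one_lt_of_neg (by norm_num) (by linarith)
  have h1 : ∀ l : ℕ, 2 * K * (1 + (l : ℝ)) * ((2 : ℝ) ^ l) ^ (-(q / 2)) =
      2 * K * r ^ l + 2 * K * ((l : ℝ) ^ 1 * r ^ l) := by
    intro l
    have e1 : ((2 : ℝ) ^ l) ^ (-(q / 2)) = r ^ l := by
      rw [hr, ← Real.rpow_natCast, ← Real.rpow_mul (by norm_num), mul_comm,
        Real.rpow_mul (by norm_num), Real.rpow_natCast]
    rw [e1]
    ring
  simp_rw [h1]
  refine ((summable_geometric_of_lt_one hr0.le hr1).mul_left _).add ?_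
  refine Summable.mul_left _ ?_
  exact summable_pow_mul_geometric_of_norm_lt_one 1 (by
    rw [Real.norm_of_nonneg hr0.le]; exact hr1)

theorem ae_R_qF {k : ℕ} (hk : 2 ≤ k) (R : ℝ) (hR : 1 ≤ R) (q : ℝ) (hq : 0 < q) :
    ∀ᵐ θ : Fin k → ℝ, (∀ i, |θ i| ≤ R) → ∀ᶠ l : ℕ in atTop,
      (cnt (fun _ : Fin k => pp k θ) (fun i => 8 ^ i.val) (2 ^ l)
        (((2 : ℝ) ^ l) ^ q) : ℝ) ≤ ((2 : ℝ) ^ l) ^ ((k : ℝ) + 5 / 2 * q) := by
  classical
  obtain ⟨K, hK, hmain⟩ := main_estF hk R hR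
  obtain ⟨C, hC, hNT⟩ := s_NT k (by omega)
  have hpos : ∀ l : ℕ, (0 : ℝ) < (2 : ℝ) ^ l := fun l => by positivity
  have hone : ∀ l : ℕ, (1 : ℝ) ≤ (2 : ℝ) ^ l := fun l => one_le_pow₀ (by norm_num)
  have hBC := s_BC (Fin k → ℝ) volume ((Fin k → ℕ) × (Fin k → ℕ)) (fun l => QF k (2 ^ l))
    (fun l p => EF R (((2 : ℝ) ^ l) ^ q) p)
    (fun l => ((2 : ℝ) ^ l) ^ ((k : ℝ) + 5 / 2 * q) / 2)
    (fun l => 2 * K * (1 + (l : ℝ)) * ((2 : ℝ) ^ l) ^ (-(q / 2)))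
    (fun l p _ => measurable_EF R _ p)
    (fun l => by have := hpos l; positivity)
    (fun l => by have := hpos l; positivity)
    (summable_auxF K q hq)
    (by
      refine Eventually.of_forall fun l => ?_
      have hL1 : (1 : ℝ) ≤ ((2 : ℝ) ^ l) ^ q := Real.one_le_rpow (hone l) hq.le
      refine (hmain l _ hL1).trans (ENNReal.ofReal_le_ofReal (le_of_eq ?_))
      have e1 : ((2 : ℝ) ^ l) ^ k * (((2 : ℝ) ^ l) ^ q) ^ 2 =
          ((2 : ℝ) ^ l) ^ (-(q / 2)) * ((2 : ℝ) ^ l) ^ ((k : ℝ) + 5 / 2 * q) := by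
        rw [← Real.rpow_natCast ((2 : ℝ) ^ l) k, sq, ← Real.rpow_add (hpos l),
          ← Real.rpow_add (hpos l), ← Real.rpow_add (hpos l)]
        congr 1
        ring
      rw [e1]
      ring)
  filter_upwards [hBC] with θ hθ hbd
  have hdiag : ∀ᶠ l : ℕ in atTop, 2 * C ≤ ((2 : ℝ) ^ l) ^ (3 / 2 * q) := by
    have h1 : Tendsto (fun l : ℕ => ((2 : ℝ) ^ l) ^ (3 / 2 * q)) atTop atTop :=
      (tendsto_rpow_atTop (by positivity)).comp (tendsto_pow_atTop_atTop_of_one_lt (by norm_num))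
    exact h1.eventually_ge_atTop _
  filter_upwards [hθ, hdiag] with l hl hd
  set P : ℕ := 2 ^ l with hP
  set L : ℝ := ((2 : ℝ) ^ l) ^ q with hL
  have hL1 : (1 : ℝ) ≤ L := Real.one_le_rpow (hone l) hq.le
  set Y : Finset ((Fin k → ℕ) × (Fin k → ℕ)) := {p ∈ QF k (2 ^ l) | |Sf p θ| ≤ L} with hY
  set Z : Finset ((Fin k → ℕ) × (Fin k → ℕ)) :=
    {p ∈ bb k P ×ˢ bb k P | TT p = 0 ∧ |Sf p θ| ≤ L} with hZ
  have h1 : (#Y : ℝ) ≤ ((2 : ℝ) ^ l) ^ ((k : ℝ) + 5 / 2 * q) / 2 := by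
    apply hl Y (filter_subset _ _)
    intro p hp
    rw [hY, mem_filter] at hp
    exact ⟨hbd, hp.2⟩
  have h1' : (#Z : ℝ) ≤ C * L * ((P : ℕ) : ℝ) ^ k := by
    refine hNT P L Nat.one_le_two_pow hL1 Z ?_ ?_
    · intro p hp
      rw [hZ, mem_filter, mem_product] at hp
      exact hp.1
    · intro p hp j hj
      rw [hZ, mem_filter] at hp
      rw [mem_Icc] at hj
      rw [← Sj_cast]
      have hlow : ∀ j : ℕ, 1 ≤ j → j < k → ((Sj p j : ℤ) : ℝ) = 0 := by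
        intro j h2 h3
        have := le_TT p h2 h3
        rw [hp.2.1] at this
        simpa using this
      rcases eq_or_lt_of_le hj.2 with h5 | h5
      · rw [h5]
        have h6 : Sf p θ = ((Sj p k : ℤ) : ℝ) := by
          unfold Sf
          rw [sum_eq_zero, add_zero]
          intro i _
          rcases Nat.eq_zero_or_pos i.val with h0 | h0
          · have : Sj p i.val = 0 := by rw [h0]; unfold Sj; simp
            rw [this]
            simp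
          · rw [hlow i.val h0 i.isLt, mul_zero]
        rw [← h6]
        exact hp.2.2
      · rw [hlow j hj.1 h5, abs_zero]
        linarith
  have h2 : cnt (fun _ : Fin k => pp k θ) (fun i => 8 ^ i.val) P L ≤ #Y + #Z := by
    unfold cnt
    rw [← card_filter_add_card_filter_not (s := ({p ∈ bb k P ×ˢ bb k P |
      |∑ i, (pp k θ).eval (p.1 i : ℝ) - ∑ i, (pp k θ).eval (p.2 i : ℝ)| ≤ L}))
      (fun p => TT p ≠ 0)]
    apply Nat.add_le_add
    · apply card_le_card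
      intro p hp
      rw [mem_filter, mem_filter, Sf_eq] at hp
      rw [hY, mem_filter]
      unfold QF
      rw [mem_filter]
      exact ⟨⟨hp.1.1, hp.2⟩, hp.1.2⟩
    · apply card_le_card
      intro p hp
      rw [mem_filter, mem_filter, Sf_eq] at hp
      rw [hZ, mem_filter]
      exact ⟨hp.1.1, not_not.1 hp.2, hp.1.2⟩
  have h3 : C * L * ((P : ℕ) : ℝ) ^ k ≤ ((2 : ℝ) ^ l) ^ ((k : ℝ) + 5 / 2 * q) / 2 := by
    have e2 : ((2 : ℝ) ^ l) ^ ((k : ℝ) + 5 / 2 * q) =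
        ((2 : ℝ) ^ l) ^ k * (L * ((2 : ℝ) ^ l) ^ (3 / 2 * q)) := by
      rw [hL, ← Real.rpow_natCast ((2 : ℝ) ^ l) k, ← Real.rpow_add (hpos l),
        ← Real.rpow_add (hpos l)]
      congr 1
      ring
    rw [e2, hP]
    push_cast
    have h4 : 0 < ((2 : ℝ) ^ l) ^ k * L := by
      have := hpos l
      positivity
    nlinarith [mul_le_mul_of_nonneg_left hd h4.le]
  calc (cnt (fun _ : Fin k => pp k θ) (fun i => 8 ^ i.val) P L : ℝ)
      ≤ ((#Y + #Z : ℕ) : ℝ) := by exact_mod_cast h2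
    _ = (#Y : ℝ) + (#Z : ℝ) := by push_cast; ring
    _ ≤ _ := by linarith

theorem s_MVC : Pool.Agent.L7h67.WA.S_MVC := by
  intro k hk
  have h1 : ∀ᵐ θ : Fin k → ℝ, ∀ R : ℕ, ∀ q : ℚ, (1 ≤ R ∧ (0 : ℝ) < q) →
      (∀ i, |θ i| ≤ R) → ∀ᶠ l : ℕ in atTop,
      (cnt (fun _ : Fin k => pp k θ) (fun i => 8 ^ i.val) (2 ^ l)
        (((2 : ℝ) ^ l) ^ (q : ℝ)) : ℝ) ≤ ((2 : ℝ) ^ l) ^ ((k : ℝ) + 5 / 2 * (q : ℝ)) := by
    rw [ae_all_iff]
    intro R
    rw [ae_all_iff]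
    intro q
    by_cases hRq : 1 ≤ R ∧ (0 : ℝ) < q
    · filter_upwards [ae_R_qF hk R (by exact_mod_cast hRq.1) q hRq.2] with θ hθ
      exact fun _ => hθ
    · exact ae_of_all _ fun θ h => absurd h hRq
  filter_upwards [h1] with θ hθ
  obtain ⟨R, hR⟩ := exists_nat_ge (1 + ∑ i, |θ i|)
  have hs0 : 0 ≤ ∑ i, |θ i| := sum_nonneg fun i _ => abs_nonneg (θ i)
  have hR1 : 1 ≤ R := by
    have : (1 : ℝ) ≤ R := by linarith
    exact_mod_cast this
  have hRi : ∀ i, |θ i| ≤ R := by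
    intro i
    have : |θ i| ≤ ∑ i, |θ i| := single_le_sum (f := fun i => |θ i|)
      (fun _ _ => abs_nonneg _) (mem_univ i)
    linarith
  intro ε hε
  have hone : ∀ l : ℕ, (1 : ℝ) ≤ (2 : ℝ) ^ l := fun l => one_le_pow₀ (by norm_num)
  obtain ⟨q, hq1, hq2⟩ := exists_rat_btwn (show ε < 6 / 5 * ε by linarith)
  filter_upwards [hθ R q ⟨hR1, by linarith⟩ hRi] with l hl
  have h2 : cnt (fun _ : Fin k => pp k θ) (fun i => 8 ^ i.val) (2 ^ l) (((2 : ℝ) ^ l) ^ ε) ≤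
      cnt (fun _ : Fin k => pp k θ) (fun i => 8 ^ i.val) (2 ^ l) (((2 : ℝ) ^ l) ^ (q : ℝ)) :=
    cnt_mono _ _ _ (Real.rpow_le_rpow_of_exponent_le (hone l) hq1.le)
  calc (cnt (fun _ : Fin k => pp k θ) (fun i => 8 ^ i.val) (2 ^ l) (((2 : ℝ) ^ l) ^ ε) : ℝ) ≤
        (cnt (fun _ : Fin k => pp k θ) (fun i => 8 ^ i.val) (2 ^ l)
          (((2 : ℝ) ^ l) ^ (q : ℝ)) : ℝ) := by exact_mod_cast h2
    _ ≤ _ := hl
    _ ≤ _ := Real.rpow_le_rpow_of_exponent_le (hone l) (by linarith)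

end Pool.Agent.L7h37.WA
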